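import Pool.Agent.V5helper45.AB.Mom
import Pool.Agent.H322R2.MA

/-!
# Liouville's inequality for the elements of a number field
-/

set_option autoImplicit false

namespace Pool.Agent.V5helper45.AB

open Finset Polynomial
open Pool.Agent.H322R2 (m_liouville m_eval_le m_dvd_of_root)

lemma root_le {P : ℤ[X]} {d : ℕ} (hd : 1 ≤ d) (hP : P.natDegree = d) {h : ℝ}
    (hh : ∀ i, |(P.coeff i : ℝ)| ≤ h) {x : ℝ} (hx : aeval x P = 0) : |x| ≤ h + 1 := by
  set Q : ℝ[X] := P.map (Int.castRingHom ℝ) with hQ
  have hQd : Q.natDegree = d := by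
    rw [hQ, natDegree_map_eq_of_injective Int.cast_injective, hP]
  have hQ0 : Q ≠ 0 := by
    intro h0
    rw [h0, natDegree_zero] at hQd
    omega
  have hroot : Q.IsRoot x := by
    rw [IsRoot, hQ, eval_map, ← algebraMap_int_eq, ← aeval_def]
    exact hx
  have h1 := hroot.norm_lt_cauchyBound hQ0
  have h2 : ((cauchyBound Q : NNReal) : ℝ) ≤ h + 1 := by
    unfold cauchyBound
    push_cast
    have h0 : 0 ≤ h := (abs_nonneg _).trans (hh 0)
    have hlc : (1 : ℝ) ≤ ‖Q.leadingCoeff‖ := by
      have : Q.leadingCoeff = (P.leadingCoeff : ℝ) := by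
        rw [leadingCoeff, hQd, hQ, coeff_map, ← hP]
        rfl
      rw [this, Real.norm_eq_abs, ← Int.cast_abs]
      have hP0 : P ≠ 0 := by
        rintro rfl
        rw [natDegree_zero] at hP
        omega
      exact_mod_cast Int.one_le_abs (leadingCoeff_ne_zero.2 hP0)
    have hsup : ((((range Q.natDegree).sup fun x => ‖Q.coeff x‖₊) : NNReal) : ℝ) ≤ h := by
      have h1 : ((range Q.natDegree).sup fun x => ‖Q.coeff x‖₊) ≤ Real.toNNReal h := by
        apply Finset.sup_le
        intro i _
        rw [Real.le_toNNReal_iff_coe_le h0]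
        push_cast
        have : Q.coeff i = (P.coeff i : ℝ) := by
          rw [hQ, coeff_map]
          rfl
        rw [this, Real.norm_eq_abs]
        exact hh i
      have h2 := NNReal.coe_le_coe.2 h1
      rwa [Real.coe_toNNReal h h0] at h2
    have : ((((range Q.natDegree).sup fun x => ‖Q.coeff x‖₊) : NNReal) : ℝ) / ‖Q.leadingCoeff‖ ≤ h :=
      (div_le_self (NNReal.coe_nonneg _) hlc).trans hsup
    linarith
  have h3 : ‖x‖ < ((cauchyBound Q : NNReal) : ℝ) := by exact_mod_cast h1
  rw [Real.norm_eq_abs] at h3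
  linarith

theorem dio_alg {d L : ℕ} (hd : 2 ≤ d) (hL : 1 ≤ L) : ∃ κ : ℝ, 0 ≤ κ ∧ ∀ N : ℕ, 1 ≤ N → ∀ c : ℝ,
    0 ≤ c → c ≤ 1 → ∀ P : ℤ[X], Irreducible P → P.natDegree = d →
    (∀ i, |(P.coeff i : ℝ)| ≤ Real.exp (c * N)) → ∀ x : ℝ, aeval x P = 0 →
    ∀ f : ℤ[X], 1 ≤ f.natDegree → f.natDegree < d → (∀ i, |(f.coeff i : ℝ)| ≤ L) →
    Dio κ ((d : ℝ) - 1) N (aeval x f) := by
  have hd' : (2 : ℝ) ≤ d := by exact_mod_cast hd
  have hL' : (1 : ℝ) ≤ L := by exact_mod_cast hL
  obtain ⟨C0, hC0⟩ : ∃ C0 : ℝ, C0 = (((d : ℝ) + 1) * ((d + 3) * L)) ^ (d - 1) * ((d : ℝ) + 1) ^ d :=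
    ⟨_, rfl⟩
  have hC01 : 1 ≤ C0 := by
    rw [hC0]
    apply one_le_mul_of_one_le_of_one_le
    · apply one_le_pow₀
      apply one_le_mul_of_one_le_of_one_le (by linarith)
      exact one_le_mul_of_one_le_of_one_le (by linarith) hL'
    · apply one_le_pow₀
      linarith
  have hlogC : 0 ≤ Real.log C0 := Real.log_nonneg hC01
  refine ⟨Real.log C0 + (2 * d * (d - 1) + d), by nlinarith, ?_⟩
  intro N hN c hc0 hc1 P hirr hPd hPh x hx f hf1 hfd hfL q hq p
  have hN' : (1 : ℝ) ≤ N := by exact_mod_cast hN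
  have hq' : (1 : ℝ) ≤ q := by exact_mod_cast hq
  have hcast : ((d - 1 : ℕ) : ℝ) = (d : ℝ) - 1 := by
    rw [Nat.cast_sub (by omega)]
    push_cast
    ring
  have hqA : (q : ℝ) ^ ((d : ℝ) - 1) = (q : ℝ) ^ (d - 1) := by
    rw [← Real.rpow_natCast, hcast]
  rw [hqA]
  obtain ⟨h, hh⟩ : ∃ h, h = Real.exp (c * N) := ⟨_, rfl⟩
  rw [← hh] at hPh
  have hh1 : 1 ≤ h := by
    rw [hh]
    exact Real.one_le_exp (by positivity)
  have hhN : h ≤ Real.exp N := by
    rw [hh]
    apply Real.exp_le_exp.2
    nlinarith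
  have hX : h + 1 ≤ Real.exp (2 * N) := by
    have h1 : (2 : ℝ) ≤ Real.exp N := by
      have := Real.add_one_le_exp (N : ℝ)
      linarith
    have h2 : Real.exp (2 * N) = Real.exp N * Real.exp N := by
      rw [← Real.exp_add]
      congr 1
      ring
    rw [h2]
    nlinarith
  have hxabs : |x| ≤ Real.exp (2 * N) := (root_le (by omega) hPd hPh hx).trans hX
  have hE1 : 1 ≤ Real.exp (2 * N) := Real.one_le_exp (by positivity)
  set E := Real.exp (2 * N) ^ d with hE
  have hE1' : 1 ≤ E := one_le_pow₀ hE1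
  have hβ : |aeval x f| ≤ (d + 1) * L * E := by
    have h1 := m_eval_le f d hfd.le L hfL (x : ℂ)
    have h2 : aeval (x : ℂ) f = ((aeval x f : ℝ) : ℂ) := by
      have := aeval_algebraMap_apply (A := ℝ) ℂ x f
      simpa using this
    rw [h2, Complex.norm_real, Real.norm_eq_abs, Complex.norm_real, Real.norm_eq_abs] at h1
    refine h1.trans ?_
    apply mul_le_mul_of_nonneg_left _ (by positivity)
    exact pow_le_pow_left₀ (by positivity) (max_le hE1 hxabs) d
  by_cases hv : 1 ≤ |aeval x f * q - p|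
  · refine le_trans ?_ hv
    have h1 : Real.exp (-((Real.log C0 + (2 * d * (d - 1) + d)) * N)) ≤ 1 := by
      rw [Real.exp_le_one_iff]
      have : 0 ≤ (Real.log C0 + (2 * d * (d - 1) + d)) * N := by
        apply mul_nonneg _ (by positivity)
        nlinarith
      linarith
    rw [div_le_one (by positivity)]
    exact h1.trans (one_le_pow₀ hq')
  · push Not at hv
    have hp : |(p : ℝ)| ≤ q * ((d + 1) * L * E) + 1 := by
      have h1 : |(p : ℝ)| ≤ |aeval x f * q| + |aeval x f * q - p| := by
        have := abs_sub (aeval x f * q) (aeval x f * q - p)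
        have e : aeval x f * q - (aeval x f * q - p) = (p : ℝ) := by ring
        rw [e] at this
        exact this
      rw [abs_mul, abs_of_nonneg (by linarith : (0 : ℝ) ≤ q)] at h1
      have h2 := mul_le_mul_of_nonneg_right hβ (by linarith : (0 : ℝ) ≤ q)
      linarith
    set R : ℤ[X] := C (q : ℤ) * f - C p with hR
    have hRc : ∀ i, |(R.coeff i : ℝ)| ≤ q * ((d + 3) * L * E) := by
      intro i
      have h1 : |(R.coeff i : ℝ)| ≤ q * L + |(p : ℝ)| := by
        rw [hR, coeff_sub, coeff_C_mul, coeff_C]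
        split_ifs with hi
        · push_cast
          refine (abs_sub _ _).trans ?_
          rw [abs_mul, abs_of_nonneg (by linarith : (0 : ℝ) ≤ q)]
          have := mul_le_mul_of_nonneg_left (hfL i) (by linarith : (0 : ℝ) ≤ q)
          linarith
        · push_cast
          rw [sub_zero, abs_mul, abs_of_nonneg (by linarith : (0 : ℝ) ≤ q)]
          have := mul_le_mul_of_nonneg_left (hfL i) (by linarith : (0 : ℝ) ≤ q)
          have := abs_nonneg (p : ℝ)
          linarith
      have h2 : (q : ℝ) * L ≤ q * (L * E) := by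
        apply mul_le_mul_of_nonneg_left _ (by linarith)
        nlinarith
      have h3 : (1 : ℝ) ≤ q * (L * E) := by
        apply one_le_mul_of_one_le_of_one_le hq'
        exact one_le_mul_of_one_le_of_one_le hL' hE1'
      have h4 : (q : ℝ) * ((d + 3) * L * E) = q * (L * E) + q * ((d + 1) * L * E) + q * (L * E) := by
        ring
      rw [h4]
      linarith
    have hRd : R.natDegree ≤ f.natDegree := by
      rw [hR]
      refine (natDegree_sub_le _ _).trans (max_le ?_ ?_)
      · exact natDegree_C_mul_le _ _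
      · rw [natDegree_C]
        omega
    have hR0 : R ≠ 0 := by
      intro h0
      have h1 : R.coeff f.natDegree = 0 := by rw [h0, coeff_zero]
      rw [hR, coeff_sub, coeff_C_mul, coeff_C, if_neg (by omega), sub_zero] at h1
      rcases mul_eq_zero.1 h1 with h2 | h2
      · have : q = 0 := by exact_mod_cast h2
        omega
      · have : f = 0 := leadingCoeff_eq_zero.1 h2
        rw [this, natDegree_zero] at hf1
        omega
    have hxC : aeval (x : ℂ) P = 0 := by
      have := aeval_algebraMap_apply (A := ℝ) ℂ x P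
      rw [hx] at this
      simpa using this
    have hRx : aeval (x : ℂ) R = ((aeval x f * q - p : ℝ) : ℂ) := by
      have h1 := aeval_algebraMap_apply (A := ℝ) ℂ x R
      have h2 : aeval x R = aeval x f * q - p := by
        rw [hR, map_sub, map_mul, aeval_C, aeval_C]
        simp
        ring
      rw [h2] at h1
      simpa using h1
    have hRne : aeval (x : ℂ) R ≠ 0 := by
      intro h0
      obtain ⟨S, hS⟩ := m_dvd_of_root P hirr (x : ℂ) hxC R h0
      have h1 : P.natDegree ≤ R.natDegree := by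
        apply natDegree_le_of_dvd ⟨S, hS⟩ hR0
      omega
    have hmain := m_liouville d P R hirr hPd.le (hRd.trans hfd.le) (x : ℂ) hxC hRne h
      (q * ((d + 3) * L * E)) hPh hRc
    rw [hRx, Complex.norm_real, Real.norm_eq_abs] at hmain
    set v := |aeval x f * q - p| with hv'
    have hv0 : 0 ≤ v := abs_nonneg _
    have e1 : (((d : ℝ) + 1) * (q * ((d + 3) * L * E))) ^ (d - 1) =
        (q : ℝ) ^ (d - 1) * (((d : ℝ) + 1) * ((d + 3) * L)) ^ (d - 1) * E ^ (d - 1) := by
      rw [← mul_pow, ← mul_pow]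
      congr 1
      ring
    have e2 : (((d : ℝ) + 1) * h) ^ d ≤ ((d : ℝ) + 1) ^ d * Real.exp (d * N) := by
      rw [mul_pow]
      apply mul_le_mul_of_nonneg_left _ (by positivity)
      calc h ^ d ≤ (Real.exp N) ^ d := pow_le_pow_left₀ (by linarith) hhN d
        _ = Real.exp (d * N) := by rw [← Real.exp_nat_mul]
    have e3 : E ^ (d - 1) = Real.exp (2 * d * (d - 1) * N) := by
      rw [hE, ← pow_mul, ← Real.exp_nat_mul]
      congr 1
      push_cast
      rw [hcast]
      ring
    rw [e1, e3] at hmain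
    have e4 : (1 : ℝ) ≤ v * ((q : ℝ) ^ (d - 1) * (C0 * Real.exp (2 * d * (d - 1) * N) *
        Real.exp (d * N))) := by
      refine hmain.trans ?_
      calc v * ((q : ℝ) ^ (d - 1) * (((d : ℝ) + 1) * ((d + 3) * L)) ^ (d - 1) *
            Real.exp (2 * d * (d - 1) * N)) * (((d : ℝ) + 1) * h) ^ d ≤
          v * ((q : ℝ) ^ (d - 1) * (((d : ℝ) + 1) * ((d + 3) * L)) ^ (d - 1) *
            Real.exp (2 * d * (d - 1) * N)) * (((d : ℝ) + 1) ^ d * Real.exp (d * N)) := by
            apply mul_le_mul_of_nonneg_left e2 (by positivity)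
        _ = _ := by
            rw [hC0]
            ring
    have e5 : C0 * Real.exp (2 * d * (d - 1) * N) * Real.exp (d * N) ≤
        Real.exp ((Real.log C0 + (2 * d * (d - 1) + d)) * N) := by
      have h1 : C0 ≤ Real.exp (Real.log C0 * N) := by
        calc C0 = Real.exp (Real.log C0) := (Real.exp_log (by linarith)).symm
          _ ≤ Real.exp (Real.log C0 * N) := Real.exp_le_exp.2 (by nlinarith)
      calc C0 * Real.exp (2 * d * (d - 1) * N) * Real.exp (d * N) ≤
          Real.exp (Real.log C0 * N) * Real.exp (2 * d * (d - 1) * N) * Real.exp (d * N) := by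
            gcongr
        _ = _ := by
          rw [← Real.exp_add, ← Real.exp_add]
          congr 1
          ring
    have e6 : (1 : ℝ) ≤ v * ((q : ℝ) ^ (d - 1) *
        Real.exp ((Real.log C0 + (2 * d * (d - 1) + d)) * N)) := by
      refine e4.trans ?_
      apply mul_le_mul_of_nonneg_left _ hv0
      exact mul_le_mul_of_nonneg_left e5 (by positivity)
    rw [Real.exp_neg, div_le_iff₀ (by positivity), inv_le_iff_one_le_mul₀ (Real.exp_pos _)]
    calc (1 : ℝ) ≤ _ := e6
      _ = _ := by ring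

end Pool.Agent.V5helper45.AB
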