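import Pool.Agent.R922.BN.Weyl
import Pool.Agent.Y309.VK.DA

/-!
# A finite form of Weyl's criterion for boxes in the torus
-/

set_option autoImplicit false

namespace Pool.Agent.V5helper45.AB

open Finset MeasureTheory
open Pool.Agent.Y309.VK (ea ea_zero ea_add ea_sum ea_conj)
open Pool.Agent.R922.BN (maj maj_cont maj_nonneg maj_le_one maj_eq_one integral_maj_le
  integral_fourier' fourier_eq_e e)

lemma e_eq_ea (x : ℝ) : e x = ea x := by
  unfold e ea
  congr 1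
  push_cast
  ring

lemma one_dim (c : UnitAddCircle) {ρ ε : ℝ} (hρ : 0 ≤ ρ) (hε : 0 < ε) :
    ∃ (F : UnitAddCircle → ℝ) (a : ℤ →₀ ℂ), (∀ z, 0 ≤ F z ∧ F z ≤ 1) ∧
      (∀ z, ‖z - c‖ ≤ ρ → F z = 1) ∧
      (∀ x : ℝ, ‖((F (x : UnitAddCircle) : ℝ) : ℂ) - ∑ h ∈ a.support, a h * ea (h * x)‖ ≤ ε) ∧
      ‖a 0‖ ≤ 2 * ρ + 3 * ε := by
  classical
  let F : C(UnitAddCircle, ℂ) := ⟨fun z => ((maj c ρ ε z : ℝ) : ℂ),
    Complex.continuous_ofReal.comp (maj_cont c ρ ε)⟩
  have hd : F ∈ closure ((Submodule.span ℂ (Set.range (@fourier (1:ℝ)))) : Set C(UnitAddCircle, ℂ)) := by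
    have := span_fourier_closure_eq_top (T := (1:ℝ))
    have h2 : F ∈ (Submodule.span ℂ (Set.range (@fourier (1:ℝ)))).topologicalClosure := by
      rw [this]; trivial
    exact h2
  obtain ⟨g, hg, hFg⟩ := Metric.mem_closure_iff.1 hd ε hε
  obtain ⟨a, ha⟩ := (Finsupp.mem_span_range_iff_exists_finsupp).1 hg
  have hgv : ∀ z, g z = ∑ h ∈ a.support, a h * (fourier h z : ℂ) := by
    intro z
    rw [← ha, Finsupp.sum]
    simp [ContinuousMap.sum_apply]
  have hFgz : ∀ z, ‖F z - g z‖ ≤ ε := by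
    intro z
    rw [dist_eq_norm] at hFg
    exact ((F - g).norm_coe_le_norm z).trans hFg.le
  have hgint : ∫ z, g z = a 0 := by
    simp_rw [hgv]
    rw [integral_finsetSum]
    · by_cases h0 : (0:ℤ) ∈ a.support
      · rw [Finset.sum_eq_single_of_mem 0 h0]
        · rw [integral_const_mul]; simp [Measure.real]
        · intro h _ hne
          rw [integral_const_mul, integral_fourier' hne, mul_zero]
      · rw [Finsupp.notMem_support_iff.1 h0]
        apply Finset.sum_eq_zero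
        intro h hh
        have hne : h ≠ 0 := fun h' => h0 (h' ▸ hh)
        rw [integral_const_mul, integral_fourier' hne, mul_zero]
    · intro h _
      apply Integrable.const_mul
      exact (ContinuousMap.continuous _).integrable_of_hasCompactSupport
        (HasCompactSupport.of_compactSpace _)
  have hFint : ∫ z, F z = ((∫ z, maj c ρ ε z : ℝ) : ℂ) := by
    show ∫ z, ((maj c ρ ε z : ℝ) : ℂ) = _
    exact integral_ofReal
  have ha0 : ‖a 0‖ ≤ 2 * (ρ + ε) + ε := by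
    have h1 : ‖(∫ z, F z) - ∫ z, g z‖ ≤ ε := by
      rw [← integral_sub]
      · refine (norm_integral_le_of_norm_le_const (C := ε)
          (Filter.Eventually.of_forall fun z => hFgz z)).trans ?_
        simp [Measure.real]
      · exact F.continuous.integrable_of_hasCompactSupport (HasCompactSupport.of_compactSpace _)
      · exact g.continuous.integrable_of_hasCompactSupport (HasCompactSupport.of_compactSpace _)
    have h2 : ‖∫ z, F z‖ ≤ 2 * (ρ + ε) := by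
      rw [hFint, Complex.norm_real, Real.norm_of_nonneg (integral_nonneg (maj_nonneg c ρ ε))]
      exact integral_maj_le hρ hε
    rw [← hgint]
    calc ‖∫ z, g z‖ = ‖(∫ z, F z) - ((∫ z, F z) - ∫ z, g z)‖ := by congr 1; ring
      _ ≤ ‖∫ z, F z‖ + ‖(∫ z, F z) - ∫ z, g z‖ := norm_sub_le _ _
      _ ≤ _ := add_le_add h2 h1
  refine ⟨maj c ρ ε, a, fun z => ⟨maj_nonneg _ _ _ _, maj_le_one hε _⟩, fun z hz => maj_eq_one hz,
    fun x => ?_, by linarith⟩
  have := hFgz (x : UnitAddCircle)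
  rw [hgv] at this
  simp_rw [fourier_eq_e, e_eq_ea] at this
  exact this

lemma norm_coe_le (x : ℝ) : ‖(x : UnitAddCircle)‖ ≤ |x| := by
  rw [UnitAddCircle.norm_eq]
  have := round_le x 0
  simpa using this

lemma prod_diff {ι : Type} (s : Finset ι) (f g : ι → ℂ) {ε : ℝ} (hf : ∀ i ∈ s, ‖f i‖ ≤ 1)
    (hg : ∀ i ∈ s, ‖g i‖ ≤ 2) (hfg : ∀ i ∈ s, ‖f i - g i‖ ≤ ε) (hε : 0 ≤ ε) :
    ‖∏ i ∈ s, f i - ∏ i ∈ s, g i‖ ≤ s.card * 2 ^ s.card * ε := by
  classical
  induction s using Finset.induction_on with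
  | empty => simp
  | insert a s ha ih =>
    rw [Finset.prod_insert ha, Finset.prod_insert ha, Finset.card_insert_of_notMem ha]
    have h1 := ih (fun i hi => hf i (Finset.mem_insert_of_mem hi))
      (fun i hi => hg i (Finset.mem_insert_of_mem hi))
      (fun i hi => hfg i (Finset.mem_insert_of_mem hi))
    have h2 : ‖∏ i ∈ s, f i‖ ≤ 1 := by
      rw [norm_prod]
      exact Finset.prod_le_one (fun i _ => norm_nonneg _)
        (fun i hi => hf i (Finset.mem_insert_of_mem hi))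
    have h3 := hg a (Finset.mem_insert_self _ _)
    have h4 := hfg a (Finset.mem_insert_self _ _)
    have e1 : f a * ∏ i ∈ s, f i - g a * ∏ i ∈ s, g i =
        (f a - g a) * ∏ i ∈ s, f i + g a * (∏ i ∈ s, f i - ∏ i ∈ s, g i) := by ring
    rw [e1]
    refine (norm_add_le _ _).trans ?_
    rw [norm_mul, norm_mul]
    have h5 : ‖f a - g a‖ * ‖∏ i ∈ s, f i‖ ≤ ε * 1 := mul_le_mul h4 h2 (norm_nonneg _) hε
    have h6 : ‖g a‖ * ‖∏ i ∈ s, f i - ∏ i ∈ s, g i‖ ≤ 2 * (s.card * 2 ^ s.card * ε) :=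
      mul_le_mul h3 h1 (norm_nonneg _) (by norm_num)
    have h7 : (1 : ℝ) ≤ 2 ^ (s.card + 1) := one_le_pow₀ (by norm_num)
    push_cast
    have e2 : ((s.card : ℝ) + 1) * 2 ^ (s.card + 1) * ε =
        2 ^ (s.card + 1) * ε + 2 * (s.card * 2 ^ s.card * ε) := by ring
    rw [e2]
    have h8 : ε * 1 ≤ 2 ^ (s.card + 1) * ε := by nlinarith
    linarith

/-- trigonometric polynomials -/
noncomputable def tp (a : ℤ →₀ ℂ) (x : ℝ) : ℂ := ∑ h ∈ a.support, a h * ea (h * x)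

lemma tp_prod {ι : Type} [Fintype ι] [DecidableEq ι] (a : ι → (ℤ →₀ ℂ)) (W : Finset ℕ)
    (y : ℕ → ι → ℝ) :
    ∑ n ∈ W, ∏ i, tp (a i) (y n i) =
      ∑ h ∈ Fintype.piFinset fun i => (a i).support,
        (∏ i, a i (h i)) * ∑ n ∈ W, ea (∑ i, h i * y n i) := by
  have h1 : ∀ n, ∏ i, tp (a i) (y n i) =
      ∑ h ∈ Fintype.piFinset fun i => (a i).support, (∏ i, a i (h i)) * ea (∑ i, h i * y n i) := by
    intro n
    unfold tp
    rw [Finset.prod_univ_sum]
    refine Finset.sum_congr rfl fun h _ => ?_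
    rw [Finset.prod_mul_distrib, ea_sum]
  rw [Finset.sum_congr rfl fun n _ => h1 n, Finset.sum_comm]
  refine Finset.sum_congr rfl fun h _ => ?_
  rw [Finset.mul_sum]

lemma tp_bound {ι : Type} [Fintype ι] [DecidableEq ι] (a : ι → (ℤ →₀ ℂ)) (W : Finset ℕ)
    (y : ℕ → ι → ℝ) {N : ℕ} {δ B : ℝ} (hδ : 0 ≤ δ)
    (hB : ∀ i, ∑ h ∈ (a i).support, ‖a i h‖ ≤ B)
    (h : ∀ k : ι → ℤ, k ≠ 0 → (∀ i, k i ∈ (a i).support) →
      ‖∑ n ∈ W, ea (∑ i, k i * y n i)‖ ≤ δ * N) :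
    ‖∑ n ∈ W, ∏ i, tp (a i) (y n i)‖ ≤ W.card * ∏ i, ‖a i 0‖ + B ^ Fintype.card ι * (δ * N) := by
  classical
  rw [tp_prod]
  set P := Fintype.piFinset fun i => (a i).support with hP
  have h1 : ∀ k ∈ P, ‖(∏ i, a i (k i)) * ∑ n ∈ W, ea (∑ i, k i * y n i)‖ ≤
      (if k = 0 then W.card * ∏ i, ‖a i 0‖ else 0) + (∏ i, ‖a i (k i)‖) * (δ * N) := by
    intro k hk
    rw [norm_mul, norm_prod]
    have h0 : 0 ≤ ∏ i, ‖a i (k i)‖ := Finset.prod_nonneg fun i _ => norm_nonneg _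
    have h0' : 0 ≤ (∏ i, ‖a i (k i)‖) * (δ * N) := mul_nonneg h0 (by positivity)
    split_ifs with hk0
    · subst hk0
      have h2 : ‖∑ n ∈ W, ea (∑ i, ((0 : ι → ℤ) i) * y n i)‖ ≤ W.card := by
        refine (norm_sum_le _ _).trans ?_
        refine (Finset.sum_le_card_nsmul _ _ 1 fun n _ => ?_).trans ?_
        · simp [ea_zero]
        · simp
      have h3 : (∏ i, ‖a i ((0 : ι → ℤ) i)‖) * ‖∑ n ∈ W, ea (∑ i, ((0 : ι → ℤ) i) * y n i)‖ ≤
          (∏ i, ‖a i ((0 : ι → ℤ) i)‖) * W.card := mul_le_mul_of_nonneg_left h2 h0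
      simp only [Pi.zero_apply] at h3 h0' ⊢
      linarith
    · rw [zero_add]
      exact mul_le_mul_of_nonneg_left (h k hk0 fun i => Fintype.mem_piFinset.1 hk i) h0
  refine (norm_sum_le _ _).trans ((Finset.sum_le_sum h1).trans ?_)
  rw [Finset.sum_add_distrib, ← Finset.sum_mul, Finset.sum_ite_eq']
  have h2 : ∑ k ∈ P, ∏ i, ‖a i (k i)‖ ≤ B ^ Fintype.card ι := by
    have h3 := Finset.prod_univ_sum (fun i => (a i).support) (fun i h => ‖a i h‖)
    rw [← hP] at h3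
    rw [← h3]
    calc ∏ i, ∑ h ∈ (a i).support, ‖a i h‖ ≤ ∏ _i : ι, B :=
          Finset.prod_le_prod (fun i _ => Finset.sum_nonneg fun _ _ => norm_nonneg _)
            (fun i _ => hB i)
      _ = B ^ Fintype.card ι := by rw [Finset.prod_const, Finset.card_univ]
  have h4 := mul_le_mul_of_nonneg_right h2 (by positivity : (0 : ℝ) ≤ δ * N)
  have h5 : (0 : ℝ) ≤ W.card * ∏ i, ‖a i 0‖ :=
    mul_nonneg (Nat.cast_nonneg _) (Finset.prod_nonneg fun i _ => norm_nonneg _)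
  split_ifs <;> linarith

/-- the number of the `n` in `W` with `y n` in the box -/
noncomputable def cnt {ι : Type} (W : Finset ℕ) (y : ℕ → ι → ℝ) (a b : ι → ℝ) : ℝ := by
  classical exact ((W.filter fun n => ∀ i, Int.fract (y n i) ∈ Set.Ico (a i) (b i)).card : ℝ)

lemma cnt_mono {ι : Type} (W : Finset ℕ) (y : ℕ → ι → ℝ) {a b a' b' : ι → ℝ}
    (ha : ∀ i, a' i ≤ a i) (hb : ∀ i, b i ≤ b' i) : cnt W y a b ≤ cnt W y a' b' := by
  classical
  unfold cnt
  have : (W.filter fun n => ∀ i, Int.fract (y n i) ∈ Set.Ico (a i) (b i)) ⊆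
      W.filter fun n => ∀ i, Int.fract (y n i) ∈ Set.Ico (a' i) (b' i) := by
    intro n hn
    rw [Finset.mem_filter] at hn ⊢
    exact ⟨hn.1, fun i => ⟨(ha i).trans (hn.2 i).1, (hn.2 i).2.trans_le (hb i)⟩⟩
  exact_mod_cast Finset.card_le_card this

lemma card_le_cnt {ι : Type} (W : Finset ℕ) (y : ℕ → ι → ℝ) (a b : ι → ℝ) (T : Finset ℕ)
    (hT : ∀ n ∈ T, n ∈ W ∧ ∀ i, Int.fract (y n i) ∈ Set.Ico (a i) (b i)) :
    (T.card : ℝ) ≤ cnt W y a b := by
  classical
  unfold cnt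
  refine Nat.cast_le.2 (Finset.card_le_card fun n hn => ?_)
  rw [Finset.mem_filter]
  exact hT n hn

/-- upper bounds for all boxes -/
theorem crit_up (ι : Type) [Fintype ι] {ε : ℝ} (hε : 0 < ε) :
    ∃ (S : Finset (ι → ℤ)) (δ : ℝ), 0 < δ ∧ δ ≤ 1 ∧ (∀ h ∈ S, h ≠ 0) ∧
      ∀ (N : ℕ) (W : Finset ℕ) (y : ℕ → ι → ℝ), W.card ≤ N →
        (∀ h ∈ S, ‖∑ n ∈ W, ea (∑ i, h i * y n i)‖ ≤ δ * N) →
        ∀ a b : ι → ℝ, (∀ i, 0 ≤ a i ∧ a i ≤ b i ∧ b i ≤ 1) →
          cnt W y a b ≤ W.card * ∏ i, (b i - a i) + ε * N := by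
  classical
  obtain ⟨D, hD⟩ : ∃ D, D = Fintype.card ι := ⟨_, rfl⟩
  set Z : ℝ := D * 2 ^ D with hZ
  have hZ0 : 0 ≤ Z := by positivity
  set ε₁ : ℝ := min (1 / 8) (ε / (8 * (Z + 1))) with hε₁
  have hε₁0 : 0 < ε₁ := lt_min (by norm_num) (by positivity)
  have hε₁1 : ε₁ ≤ 1 / 8 := min_le_left _ _
  have hε₁2 : ε₁ * (8 * (Z + 1)) ≤ ε := by
    have : ε₁ ≤ ε / (8 * (Z + 1)) := min_le_right _ _
    rwa [le_div_iff₀ (by positivity)] at this
  obtain ⟨K, hK⟩ : ∃ K : ℕ, 1 / ε₁ ≤ K := exists_nat_ge _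
  have hK0 : (0 : ℝ) < K := lt_of_lt_of_le (by positivity) hK
  have hKε : 1 / (K : ℝ) ≤ ε₁ := by
    rw [div_le_iff₀ hε₁0] at hK
    rw [div_le_iff₀ hK0]
    linarith
  have hone : ∀ u v : ℕ, ∃ (F : UnitAddCircle → ℝ) (a : ℤ →₀ ℂ), (∀ z, 0 ≤ F z ∧ F z ≤ 1) ∧
      (∀ z, ‖z - ((((u : ℝ) + v) / (2 * K) : ℝ) : UnitAddCircle)‖ ≤ |((v : ℝ) - u) / (2 * K)| →
        F z = 1) ∧
      (∀ x : ℝ, ‖((F (x : UnitAddCircle) : ℝ) : ℂ) - ∑ h ∈ a.support, a h * ea (h * x)‖ ≤ ε₁) ∧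
      ‖a 0‖ ≤ 2 * |((v : ℝ) - u) / (2 * K)| + 3 * ε₁ := fun u v =>
    one_dim _ (abs_nonneg _) hε₁0
  choose F co hF1 hF2 hF3 hF4 using hone
  set B : ℝ := ∑ u ∈ range (K + 1), ∑ v ∈ range (K + 1), ∑ h ∈ (co u v).support, ‖co u v h‖ + 1
    with hB
  have hBge : ∀ u v, u ≤ K → v ≤ K → ∑ h ∈ (co u v).support, ‖co u v h‖ ≤ B := by
    intro u v hu hv
    have h1 : ∑ h ∈ (co u v).support, ‖co u v h‖ ≤
        ∑ v ∈ range (K + 1), ∑ h ∈ (co u v).support, ‖co u v h‖ :=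
      Finset.single_le_sum (f := fun v => ∑ h ∈ (co u v).support, ‖co u v h‖)
        (fun _ _ => Finset.sum_nonneg fun _ _ => norm_nonneg _)
        (Finset.mem_range.2 (Nat.lt_succ_of_le hv))
    have h2 : ∑ v ∈ range (K + 1), ∑ h ∈ (co u v).support, ‖co u v h‖ ≤
        ∑ u ∈ range (K + 1), ∑ v ∈ range (K + 1), ∑ h ∈ (co u v).support, ‖co u v h‖ :=
      Finset.single_le_sum (f := fun u => ∑ v ∈ range (K + 1), ∑ h ∈ (co u v).support, ‖co u v h‖)
        (fun _ _ => Finset.sum_nonneg fun _ _ => Finset.sum_nonneg fun _ _ => norm_nonneg _)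
        (Finset.mem_range.2 (Nat.lt_succ_of_le hu))
    linarith
  have hB1 : 1 ≤ B := by
    have : 0 ≤ ∑ u ∈ range (K + 1), ∑ v ∈ range (K + 1), ∑ h ∈ (co u v).support, ‖co u v h‖ :=
      Finset.sum_nonneg fun _ _ => Finset.sum_nonneg fun _ _ =>
        Finset.sum_nonneg fun _ _ => norm_nonneg _
    linarith
  set S1 : Finset ℤ := (range (K + 1) ×ˢ range (K + 1)).biUnion fun p => (co p.1 p.2).support
    with hS1
  refine ⟨(Fintype.piFinset fun _ : ι => S1).erase 0, ε₁ / B ^ D, by positivity, ?_,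
    fun h hh => (Finset.mem_erase.1 hh).1, ?_⟩
  · rw [div_le_one (by positivity)]
    have : (1 : ℝ) ≤ B ^ D := one_le_pow₀ hB1
    linarith
  intro N W y hW hexp a b hab
  have hWN : (W.card : ℝ) ≤ N := by exact_mod_cast hW
  -- round outwards
  set u : ι → ℕ := fun i => ⌊K * a i⌋₊ with hu
  set v : ι → ℕ := fun i => ⌈K * b i⌉₊ with hv
  have hu1 : ∀ i, (u i : ℝ) ≤ K * a i := fun i => Nat.floor_le (by have := (hab i).1; positivity)
  have hu2 : ∀ i, K * a i < u i + 1 := fun i => Nat.lt_floor_add_one _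
  have hv1 : ∀ i, K * b i ≤ v i := fun i => Nat.le_ceil _
  have hv2 : ∀ i, (v i : ℝ) < K * b i + 1 := fun i => Nat.ceil_lt_add_one (by
    have := (hab i).1
    have := (hab i).2.1
    have : 0 ≤ b i := by linarith
    positivity)
  have hvK : ∀ i, v i ≤ K := by
    intro i
    apply Nat.ceil_le.2
    have := (hab i).2.2
    nlinarith
  have huv' : ∀ i, (u i : ℝ) ≤ v i := by
    intro i
    have := (hab i).2.1
    have h2 : K * a i ≤ K * b i := mul_le_mul_of_nonneg_left this hK0.le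
    linarith [hu1 i, hv1 i]
  have huv : ∀ i, u i ≤ v i := fun i => by exact_mod_cast huv' i
  have huK : ∀ i, u i ≤ K := fun i => (huv i).trans (hvK i)
  have hab1 : ∀ i, |((v i : ℝ) - u i) / (2 * K)| = ((v i : ℝ) - u i) / (2 * K) := fun i => by
    apply abs_of_nonneg
    apply div_nonneg _ (by positivity)
    linarith [huv' i]
  -- the majorant
  have h1 : cnt W y a b ≤ ∑ n ∈ W, ∏ i, F (u i) (v i) ((y n i : ℝ) : UnitAddCircle) := by
    unfold cnt
    rw [Finset.card_filter]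
    push_cast
    refine Finset.sum_le_sum fun n _ => ?_
    split_ifs with hn
    · rw [Finset.prod_eq_one]
      intro i _
      apply hF2
      rw [hab1]
      obtain ⟨hn1, hn2⟩ := hn i
      have e1 : ((y n i : ℝ) : UnitAddCircle) = ((Int.fract (y n i) : ℝ) : UnitAddCircle) := by
        have h0 : (((⌊y n i⌋ : ℤ) : ℝ) : UnitAddCircle) = 0 := by
          rw [AddCircle.coe_eq_zero_iff]
          exact ⟨⌊y n i⌋, by simp⟩
        have h1 : y n i = Int.fract (y n i) + ⌊y n i⌋ := (Int.fract_add_floor _).symm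
        conv_lhs => rw [h1, AddCircle.coe_add, h0, add_zero]
      rw [e1, ← AddCircle.coe_sub]
      refine (norm_coe_le _).trans ?_
      rw [abs_le]
      have e2 : ((u i : ℝ) + v i) / (2 * K) = u i / K + ((v i : ℝ) - u i) / (2 * K) := by
        field_simp
        ring
      have e3 : ((u i : ℝ) + v i) / (2 * K) = v i / K - ((v i : ℝ) - u i) / (2 * K) := by
        field_simp
        ring
      have e4 : (u i : ℝ) / K ≤ a i := by
        rw [div_le_iff₀ hK0]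
        linarith [hu1 i]
      have e5 : b i ≤ (v i : ℝ) / K := by
        rw [le_div_iff₀ hK0]
        linarith [hv1 i]
      constructor
      · linarith
      · linarith
    · exact Finset.prod_nonneg fun i _ => (hF1 _ _ _).1
  have h2 : (∑ n ∈ W, ∏ i, F (u i) (v i) ((y n i : ℝ) : UnitAddCircle) : ℝ) ≤
      ‖∑ n ∈ W, ∏ i, tp (co (u i) (v i)) (y n i)‖ + N * (Z * ε₁) := by
    have h3 : ∀ n, ‖∏ i, ((F (u i) (v i) ((y n i : ℝ) : UnitAddCircle) : ℝ) : ℂ) -
        ∏ i, tp (co (u i) (v i)) (y n i)‖ ≤ Z * ε₁ := by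
      intro n
      have h4 : ∀ i, ‖((F (u i) (v i) ((y n i : ℝ) : UnitAddCircle) : ℝ) : ℂ)‖ ≤ 1 := by
        intro i
        rw [Complex.norm_real, Real.norm_of_nonneg (hF1 _ _ _).1]
        exact (hF1 _ _ _).2
      have h5 := prod_diff (Finset.univ : Finset ι)
        (fun i => ((F (u i) (v i) ((y n i : ℝ) : UnitAddCircle) : ℝ) : ℂ))
        (fun i => tp (co (u i) (v i)) (y n i)) (ε := ε₁) (fun i _ => h4 i) (fun i _ => ?_)
        (fun i _ => hF3 _ _ _) hε₁0.le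
      · rw [Finset.card_univ, ← hD] at h5
        exact h5
      · have h6 := hF3 (u i) (v i) (y n i)
        have h7 : tp (co (u i) (v i)) (y n i) = ((F (u i) (v i) ((y n i : ℝ) : UnitAddCircle) : ℝ) : ℂ) -
          (((F (u i) (v i) ((y n i : ℝ) : UnitAddCircle) : ℝ) : ℂ) -
            tp (co (u i) (v i)) (y n i)) := by ring
        rw [h7]
        refine (norm_sub_le _ _).trans ?_
        have := h4 i
        unfold tp
        linarith
    have h8 : (((∑ n ∈ W, ∏ i, F (u i) (v i) ((y n i : ℝ) : UnitAddCircle) : ℝ)) : ℂ) =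
        ∑ n ∈ W, ∏ i, ((F (u i) (v i) ((y n i : ℝ) : UnitAddCircle) : ℝ) : ℂ) := by
      push_cast
      rfl
    have h9 : 0 ≤ (∑ n ∈ W, ∏ i, F (u i) (v i) ((y n i : ℝ) : UnitAddCircle) : ℝ) :=
      Finset.sum_nonneg fun n _ => Finset.prod_nonneg fun i _ => (hF1 _ _ _).1
    calc (∑ n ∈ W, ∏ i, F (u i) (v i) ((y n i : ℝ) : UnitAddCircle) : ℝ) =
        ‖∑ n ∈ W, ∏ i, ((F (u i) (v i) ((y n i : ℝ) : UnitAddCircle) : ℝ) : ℂ)‖ := by
          rw [← h8, Complex.norm_real, Real.norm_of_nonneg h9]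
      _ ≤ ‖∑ n ∈ W, ∏ i, tp (co (u i) (v i)) (y n i)‖ +
          ‖∑ n ∈ W, ∏ i, ((F (u i) (v i) ((y n i : ℝ) : UnitAddCircle) : ℝ) : ℂ) -
            ∑ n ∈ W, ∏ i, tp (co (u i) (v i)) (y n i)‖ := by
          have := norm_add_le (∑ n ∈ W, ∏ i, tp (co (u i) (v i)) (y n i))
            (∑ n ∈ W, ∏ i, ((F (u i) (v i) ((y n i : ℝ) : UnitAddCircle) : ℝ) : ℂ) -
            ∑ n ∈ W, ∏ i, tp (co (u i) (v i)) (y n i))
          rwa [add_sub_cancel] at this
      _ ≤ _ := by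
          gcongr
          rw [← Finset.sum_sub_distrib]
          refine (norm_sum_le _ _).trans ?_
          refine (Finset.sum_le_card_nsmul _ _ _ fun n _ => h3 n).trans ?_
          rw [nsmul_eq_mul]
          exact mul_le_mul_of_nonneg_right hWN (by positivity)
  have h3 := tp_bound (fun i => co (u i) (v i)) W y (N := N) (δ := ε₁ / B ^ D) (B := B)
    (by positivity) (fun i => hBge _ _ (huK i) (hvK i)) (by
      intro k hk0 hk
      apply hexp
      rw [Finset.mem_erase, Fintype.mem_piFinset]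
      refine ⟨hk0, fun i => ?_⟩
      rw [hS1, Finset.mem_biUnion]
      exact ⟨(u i, v i), Finset.mem_product.2 ⟨Finset.mem_range.2 (Nat.lt_succ_of_le (huK i)),
        Finset.mem_range.2 (Nat.lt_succ_of_le (hvK i))⟩, hk i⟩)
  have h4 : B ^ Fintype.card ι * (ε₁ / B ^ D * N) = ε₁ * N := by
    rw [← hD]
    field_simp
  rw [h4] at h3
  have h5 : ∏ i, ‖co (u i) (v i) 0‖ ≤ ∏ i, (b i - a i) + Z * (5 * ε₁) := by
    have h6 : ∀ i, ‖co (u i) (v i) 0‖ ≤ (b i - a i) + 5 * ε₁ := by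
      intro i
      have h7 := hF4 (u i) (v i)
      rw [hab1] at h7
      have h8 : 2 * (((v i : ℝ) - u i) / (2 * K)) ≤ (b i - a i) + 2 * ε₁ := by
        have e1 : 2 * (((v i : ℝ) - u i) / (2 * K)) = ((v i : ℝ) - u i) / K := by field_simp
        have e2 : ((v i : ℝ) - u i) / K ≤ ((K * b i + 1) - (K * a i - 1)) / K := by
          apply div_le_div_of_nonneg_right _ hK0.le
          linarith [hv2 i, hu2 i]
        have e3 : ((K * b i + 1) - (K * a i - 1)) / K = (b i - a i) + 2 * (1 / K) := by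
          field_simp
          ring
        rw [e1]
        linarith
      linarith
    have h7 : ∏ i, ‖co (u i) (v i) 0‖ ≤ ∏ i, ((b i - a i) + 5 * ε₁) :=
      Finset.prod_le_prod (fun i _ => norm_nonneg _) fun i _ => h6 i
    have h8 := prod_diff (Finset.univ : Finset ι) (fun i => (((b i - a i : ℝ)) : ℂ))
      (fun i => (((b i - a i) + 5 * ε₁ : ℝ) : ℂ)) (ε := 5 * ε₁) (fun i _ => by
        rw [Complex.norm_real, Real.norm_of_nonneg (by linarith [(hab i).2.1])]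
        linarith [(hab i).1, (hab i).2.2]) (fun i _ => by
        rw [Complex.norm_real, Real.norm_of_nonneg (by linarith [(hab i).2.1])]
        linarith [(hab i).1, (hab i).2.2]) (fun i _ => by
        rw [← Complex.ofReal_sub, Complex.norm_real, Real.norm_eq_abs]
        rw [show b i - a i - (b i - a i + 5 * ε₁) = -(5 * ε₁) by ring, abs_neg,
          abs_of_pos (by positivity)]) (by positivity)
    rw [Finset.card_univ, ← hD, ← Complex.ofReal_prod, ← Complex.ofReal_prod,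
      ← Complex.ofReal_sub, Complex.norm_real, Real.norm_eq_abs] at h8
    have h9 := (abs_le.1 h8).1
    linarith
  have h6 : (W.card : ℝ) * ∏ i, ‖co (u i) (v i) 0‖ ≤
      W.card * ∏ i, (b i - a i) + N * (Z * (5 * ε₁)) := by
    have h7 := mul_le_mul_of_nonneg_left h5 (Nat.cast_nonneg W.card : (0 : ℝ) ≤ W.card)
    have h8 : (W.card : ℝ) * (Z * (5 * ε₁)) ≤ N * (Z * (5 * ε₁)) :=
      mul_le_mul_of_nonneg_right hWN (by positivity)
    linarith
  have hN0 : (0 : ℝ) ≤ N := Nat.cast_nonneg _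
  have h7 : N * (Z * (5 * ε₁)) + ε₁ * N + N * (Z * ε₁) ≤ ε * N := by
    have h8 : Z * (5 * ε₁) + ε₁ + Z * ε₁ ≤ ε := by
      have : 0 ≤ Z * ε₁ := by positivity
      linarith
    have := mul_le_mul_of_nonneg_right h8 hN0
    linarith
  linarith

/-- **A finite form of Weyl's criterion for boxes** -/
theorem crit (ι : Type) [Fintype ι] {ε : ℝ} (hε : 0 < ε) :
    ∃ (S : Finset (ι → ℤ)) (δ : ℝ), 0 < δ ∧ δ ≤ 1 ∧ (∀ h ∈ S, h ≠ 0) ∧
      ∀ (N : ℕ) (W : Finset ℕ) (y : ℕ → ι → ℝ), W.card ≤ N →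
        (∀ h ∈ S, ‖∑ n ∈ W, ea (∑ i, h i * y n i)‖ ≤ δ * N) →
        ∀ a b : ι → ℝ, (∀ i, 0 ≤ a i ∧ a i ≤ b i ∧ b i ≤ 1) →
          |cnt W y a b - W.card * ∏ i, (b i - a i)| ≤ ε * N := by
  classical
  obtain ⟨E, hE⟩ : ∃ E : ℝ, E = (Fintype.card (ι → Fin 3) : ℝ) := ⟨_, rfl⟩
  have hE1 : 1 ≤ E := by
    rw [hE]
    exact_mod_cast Fintype.card_pos
  obtain ⟨S, δ, hδ, hδ1, hS, h⟩ := crit_up ι (ε := ε / E) (by positivity)
  refine ⟨S, δ, hδ, hδ1, hS, fun N W y hW hexp a b hab => ?_⟩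
  have hup := h N W y hW hexp
  have hN0 : (0 : ℝ) ≤ N := Nat.cast_nonneg _
  have hεE : ε / E * N ≤ ε * N := by
    apply mul_le_mul_of_nonneg_right _ hN0
    exact div_le_self hε.le hE1
  -- the pieces
  set lo : ι → Fin 3 → ℝ := fun i s => ![0, a i, b i] s with hlo
  set hi : ι → Fin 3 → ℝ := fun i s => ![a i, b i, 1] s with hhi
  have hpiece : ∀ (σ : ι → Fin 3) (i : ι), 0 ≤ lo i (σ i) ∧ lo i (σ i) ≤ hi i (σ i) ∧
      hi i (σ i) ≤ 1 := by
    intro σ i
    obtain ⟨h1, h2, h3⟩ := hab i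
    have : ∀ s : Fin 3, 0 ≤ lo i s ∧ lo i s ≤ hi i s ∧ hi i s ≤ 1 := by
      intro s
      fin_cases s
      · simp only [hlo, hhi]
        simp
        constructor <;> linarith
      · simp only [hlo, hhi]
        simp
        exact ⟨h1, h2, h3⟩
      · simp only [hlo, hhi]
        simp
        constructor <;> linarith
    exact this _
  have hvol : ∑ σ : ι → Fin 3, ∏ i, (hi i (σ i) - lo i (σ i)) = 1 := by
    have h1 := Finset.prod_univ_sum (fun _ : ι => (Finset.univ : Finset (Fin 3)))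
      (fun i s => hi i s - lo i s)
    rw [Fintype.piFinset_univ] at h1
    rw [← h1]
    apply Finset.prod_eq_one
    intro i _
    simp only [hlo, hhi, Fin.sum_univ_three]
    simp
  have hcov : (W.card : ℝ) ≤ ∑ σ : ι → Fin 3, cnt W y (fun i => lo i (σ i)) (fun i => hi i (σ i)) := by
    set f : ℕ → ι → Fin 3 := fun n i => if Int.fract (y n i) < a i then 0 else
      if Int.fract (y n i) < b i then 1 else 2 with hf
    have h1 := Finset.card_eq_sum_card_fiberwise (f := f) (s := W)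
      (t := (Finset.univ : Finset (ι → Fin 3))) (fun _ _ => Finset.mem_coe.2 (Finset.mem_univ _))
    rw [h1]
    push_cast
    refine Finset.sum_le_sum fun σ _ => ?_
    refine card_le_cnt _ _ _ _ _ fun n hn' => ?_
    have hn := Finset.mem_filter.1 hn'
    refine ⟨hn.1, fun i => ?_⟩
    rw [← hn.2]
    simp only [hf]
    have h0 := Int.fract_nonneg (y n i)
    have h0' := Int.fract_lt_one (y n i)
    split_ifs with h3 h4
    · simp only [hlo, hhi, Set.mem_Ico]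
      simp
      exact h3
    · simp only [hlo, hhi, Set.mem_Ico]
      simp
      exact ⟨not_lt.1 h3, h4⟩
    · simp only [hlo, hhi, Set.mem_Ico]
      simp
      exact ⟨not_lt.1 h4, h0'⟩
  set σ₁ : ι → Fin 3 := fun _ => 1 with hσ₁
  have hbox : cnt W y (fun i => lo i (σ₁ i)) (fun i => hi i (σ₁ i)) = cnt W y a b := by
    congr 1
  have hboxv : ∏ i, (hi i (σ₁ i) - lo i (σ₁ i)) = ∏ i, (b i - a i) := by
    refine Finset.prod_congr rfl fun i _ => ?_
    simp only [hlo, hhi, hσ₁]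
    simp
  rw [abs_le]
  constructor
  · have h1 : ∑ σ : ι → Fin 3, cnt W y (fun i => lo i (σ i)) (fun i => hi i (σ i)) =
        cnt W y a b + ∑ σ ∈ Finset.univ.erase σ₁,
          cnt W y (fun i => lo i (σ i)) (fun i => hi i (σ i)) := by
      rw [← Finset.add_sum_erase _ _ (Finset.mem_univ σ₁), hbox]
    have h2 : ∑ σ : ι → Fin 3, ∏ i, (hi i (σ i) - lo i (σ i)) =
        ∏ i, (b i - a i) + ∑ σ ∈ Finset.univ.erase σ₁, ∏ i, (hi i (σ i) - lo i (σ i)) := by
      rw [← Finset.add_sum_erase _ _ (Finset.mem_univ σ₁), hboxv]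
    have h3 : ∑ σ ∈ Finset.univ.erase σ₁, cnt W y (fun i => lo i (σ i)) (fun i => hi i (σ i)) ≤
        ∑ σ ∈ Finset.univ.erase σ₁, (W.card * ∏ i, (hi i (σ i) - lo i (σ i)) + ε / E * N) :=
      Finset.sum_le_sum fun σ _ => hup _ _ (hpiece σ)
    rw [Finset.sum_add_distrib, ← Finset.mul_sum, Finset.sum_const, nsmul_eq_mul] at h3
    have h4 : (((Finset.univ.erase σ₁ : Finset (ι → Fin 3)).card : ℕ) : ℝ) * (ε / E * N) ≤
        ε * N := by
      have h5 : (((Finset.univ.erase σ₁ : Finset (ι → Fin 3)).card : ℕ) : ℝ) ≤ E := by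
        rw [hE]
        have := Finset.card_le_card (Finset.erase_subset σ₁ (Finset.univ : Finset (ι → Fin 3)))
        rw [Finset.card_univ] at this
        exact_mod_cast this
      calc _ ≤ E * (ε / E * N) := mul_le_mul_of_nonneg_right h5 (by positivity)
        _ = ε * N := by field_simp
    rw [hvol] at h2
    have h6 : ∑ σ ∈ Finset.univ.erase σ₁, ∏ i, (hi i (σ i) - lo i (σ i)) =
        1 - ∏ i, (b i - a i) := by linarith
    rw [h6] at h3
    rw [h1] at hcov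
    linarith
  · have := hup a b hab
    linarith

end Pool.Agent.V5helper45.AB
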