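import Pool.Agent.V5helper45.AB.Mom

/-!
# Large deviations of the exponential sums over the powers of a base
-/

set_option autoImplicit false

namespace Pool.Agent.V5helper45.AB

open Finset Filter Polynomial
open Pool.Agent.Y309.VK (ea ea_zero ea_add ea_sum ea_conj)

lemma small_ev : ∀ᶠ N : ℕ in atTop, ∀ K : ℕ, (K : ℝ) ≤ N / 3 →
    3 * (N : ℝ) ^ (2 * K) * Real.exp (-(N : ℝ) ^ (3 / 2 : ℝ)) ≤ 1 := by
  have h1 := (isLittleO_log_rpow_atTop (by norm_num : (0 : ℝ) < 1 / 2)).def (c := 1) (by norm_num)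
  have h2 := tendsto_natCast_atTop_atTop (R := ℝ) |>.eventually h1
  filter_upwards [h2, Filter.eventually_ge_atTop 4] with N hN hN4 K hK
  have hN4' : (4 : ℝ) ≤ N := by exact_mod_cast hN4
  have hN0 : (0 : ℝ) < N := by linarith
  rw [one_mul, Real.norm_of_nonneg (Real.log_nonneg (by linarith)),
    Real.norm_of_nonneg (by positivity)] at hN
  have e1 : (N : ℝ) ^ (2 * K) = Real.exp (2 * K * Real.log N) := by
    have : Real.exp (2 * K * Real.log N) = Real.exp (((2 * K : ℕ) : ℝ) * Real.log N) := by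
      push_cast
      rfl
    rw [this, Real.exp_nat_mul, Real.exp_log hN0]
  have e2 : (N : ℝ) ^ (3 / 2 : ℝ) = N * (N : ℝ) ^ (1 / 2 : ℝ) := by
    have : (3 / 2 : ℝ) = 1 + 1 / 2 := by norm_num
    rw [this, Real.rpow_add hN0, Real.rpow_one]
  have e3 : (3 : ℝ) ≤ Real.exp 2 := by
    have := Real.add_one_le_exp (2 : ℝ)
    linarith
  have e4 : 2 * K * Real.log N ≤ 2 / 3 * (N * (N : ℝ) ^ (1 / 2 : ℝ)) := by
    have h5 : (K : ℝ) * Real.log N ≤ N / 3 * (N : ℝ) ^ (1 / 2 : ℝ) :=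
      mul_le_mul hK hN (Real.log_nonneg (by linarith)) (by positivity)
    linarith
  have e5 : (2 : ℝ) ≤ (N : ℝ) ^ (1 / 2 : ℝ) := by
    calc (2 : ℝ) = (4 : ℝ) ^ (1 / 2 : ℝ) := by
          rw [← Real.sqrt_eq_rpow]
          rw [show (4 : ℝ) = 2 ^ 2 by norm_num, Real.sqrt_sq (by norm_num)]
      _ ≤ (N : ℝ) ^ (1 / 2 : ℝ) := Real.rpow_le_rpow (by norm_num) hN4' (by norm_num)
  have e6 : (8 : ℝ) ≤ N * (N : ℝ) ^ (1 / 2 : ℝ) := by nlinarith
  calc 3 * (N : ℝ) ^ (2 * K) * Real.exp (-(N : ℝ) ^ (3 / 2 : ℝ)) ≤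
      Real.exp 2 * Real.exp (2 * K * Real.log N) * Real.exp (-(N : ℝ) ^ (3 / 2 : ℝ)) := by
        rw [e1]
        gcongr
    _ = Real.exp (2 + 2 * K * Real.log N + -(N : ℝ) ^ (3 / 2 : ℝ)) := by
        rw [Real.exp_add, Real.exp_add]
    _ ≤ 1 := by
        rw [Real.exp_le_one_iff, e2]
        linarith

theorem dev {η : ℝ} (hη : 0 < η) {A : ℝ} (κ : ℝ) (hA : 1 ≤ A) (k : ℕ) (g : ℤ[X])
    (hg : 1 ≤ g.natDegree) {δ : ℝ} (hδ : 0 < δ) (hδ1 : δ ≤ 1) :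
    ∃ N₀ : ℕ, ∀ N : ℕ, N₀ ≤ N → ∀ H : ℕ, Real.exp ((N : ℝ) ^ (5 + η)) ≤ H → ∀ (T : ℝ) (Φ : ℝ[X]),
      Φ ≠ 0 → Φ.natDegree ≤ k → Dio κ A N Φ.leadingCoeff →
      ∀ (W : Finset ℕ), (∀ n ∈ W, 1 ≤ n ∧ n ≤ N) →
      (((range H).filter fun i : ℕ => δ * N ≤ ‖fW W Φ g (T + i)‖).card : ℝ) ≤
        6 * H * Real.exp (-(δ ^ 2 * N / 3)) := by
  classical
  obtain ⟨N₀, hN₀⟩ := moment hη κ hA k g hg
  obtain ⟨N₁, hN₁⟩ := Filter.eventually_atTop.1 small_ev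
  refine ⟨max N₀ (max N₁ (max 1 ⌈3 / δ ^ 2⌉₊)), fun N hN H hH T Φ hΦ hΦk hdio W hW => ?_⟩
  have hNa : N₀ ≤ N := le_of_max_le_left hN
  have hNb : N₁ ≤ N := le_of_max_le_left (le_of_max_le_right hN)
  have hNc : 1 ≤ N := le_of_max_le_left (le_of_max_le_right (le_of_max_le_right hN))
  have hNd : ⌈3 / δ ^ 2⌉₊ ≤ N := le_of_max_le_right (le_of_max_le_right (le_of_max_le_right hN))
  have hNd' : 3 / δ ^ 2 ≤ N := (Nat.le_ceil _).trans (by exact_mod_cast hNd)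
  have hN1' : (1 : ℝ) ≤ N := by exact_mod_cast hNc
  have hN0 : (0 : ℝ) < N := by linarith
  have hδ2 : 0 < δ ^ 2 := by positivity
  have hδ3 : δ ^ 2 ≤ 1 := by nlinarith
  rw [div_le_iff₀ hδ2] at hNd'
  obtain ⟨K, hK⟩ : ∃ K, K = ⌊δ ^ 2 * N / 3⌋₊ := ⟨_, rfl⟩
  have hK1 : (K : ℝ) ≤ δ ^ 2 * N / 3 := by
    rw [hK]
    exact Nat.floor_le (by positivity)
  have hK2 : δ ^ 2 * N / 3 < K + 1 := by
    rw [hK]
    exact Nat.lt_floor_add_one _
  have hK3 : (K : ℝ) ≤ N / 3 := by nlinarith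
  have hKN : K ≤ N := by
    have : (K : ℝ) ≤ N := by linarith
    exact_mod_cast this
  have hK4 : 1 ≤ K := by
    rw [hK]
    apply Nat.le_floor
    push_cast
    linarith
  have hK4' : (1 : ℝ) ≤ K := by exact_mod_cast hK4
  have h1 := hN₀ N hNa H hH T Φ hΦ hΦk hdio W hW K hKN
  have h2 := hN₁ N hNb K hK3
  have hWN : (W.card : ℝ) ≤ N := by
    have : W ⊆ Finset.Icc 1 N := fun n hn => Finset.mem_Icc.2 (hW n hn)
    have := Finset.card_le_card this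
    rw [Nat.card_Icc, Nat.add_sub_cancel] at this
    exact_mod_cast this
  have hH0 : (0 : ℝ) ≤ H := Nat.cast_nonneg _
  set E := Real.exp (-(N : ℝ) ^ (3 / 2 : ℝ)) with hE
  have h3 : (K.factorial : ℝ) * (W.card : ℝ) ^ K + 3 * (W.card : ℝ) ^ (2 * K) * E ≤
      2 * ((K : ℝ) * N) ^ K := by
    have e1 : (K.factorial : ℝ) ≤ (K : ℝ) ^ K := by exact_mod_cast Nat.factorial_le_pow K
    have e2 : (W.card : ℝ) ^ K ≤ (N : ℝ) ^ K := pow_le_pow_left₀ (by positivity) hWN K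
    have e3 : (W.card : ℝ) ^ (2 * K) ≤ (N : ℝ) ^ (2 * K) := pow_le_pow_left₀ (by positivity) hWN _
    have e4 : 3 * (W.card : ℝ) ^ (2 * K) * E ≤ 3 * (N : ℝ) ^ (2 * K) * E := by
      apply mul_le_mul_of_nonneg_right _ (Real.exp_pos _).le
      linarith
    have e5 : (1 : ℝ) ≤ ((K : ℝ) * N) ^ K := one_le_pow₀ (by nlinarith)
    have e6 : (K.factorial : ℝ) * (W.card : ℝ) ^ K ≤ ((K : ℝ) * N) ^ K := by
      rw [mul_pow]
      exact mul_le_mul e1 e2 (by positivity) (by positivity)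
    linarith
  set S := (range H).filter fun i : ℕ => δ * N ≤ ‖fW W Φ g (T + i)‖ with hS
  have h4 : (S.card : ℝ) * (δ * N) ^ (2 * K) ≤ ∑ i ∈ range H, ‖fW W Φ g (T + i)‖ ^ (2 * K) := by
    calc (S.card : ℝ) * (δ * N) ^ (2 * K) = ∑ i ∈ S, (δ * N) ^ (2 * K) := by
          rw [Finset.sum_const, nsmul_eq_mul]
      _ ≤ ∑ i ∈ S, ‖fW W Φ g (T + i)‖ ^ (2 * K) := by
          refine Finset.sum_le_sum fun i hi => ?_
          exact pow_le_pow_left₀ (by positivity) (Finset.mem_filter.1 hi).2 _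
      _ ≤ _ := by
          apply Finset.sum_le_sum_of_subset_of_nonneg (Finset.filter_subset _ _)
          intro i _ _
          positivity
  have h5 : (S.card : ℝ) * (δ * N) ^ (2 * K) ≤ H * (2 * ((K : ℝ) * N) ^ K) :=
    (h4.trans h1).trans (mul_le_mul_of_nonneg_left h3 hH0)
  have h6 : (δ * N) ^ (2 * K) = ((δ * N) ^ 2) ^ K := by rw [pow_mul]
  have h7 : ((K : ℝ) * N) ^ K ≤ ((δ * N) ^ 2) ^ K * Real.exp (-(K : ℝ)) := by
    have e1 : (K : ℝ) * N ≤ (δ * N) ^ 2 * Real.exp (-1) := by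
      have e2 : (1 : ℝ) / 3 ≤ Real.exp (-1) := by
        rw [Real.exp_neg, one_div]
        apply inv_anti₀ (Real.exp_pos _)
        have := Real.exp_one_lt_d9
        norm_num at this
        linarith
      have e3 : (K : ℝ) * N ≤ (δ * N) ^ 2 * (1 / 3) := by
        have := mul_le_mul_of_nonneg_right hK1 hN0.le
        calc (K : ℝ) * N ≤ δ ^ 2 * N / 3 * N := this
          _ = (δ * N) ^ 2 * (1 / 3) := by ring
      exact e3.trans (mul_le_mul_of_nonneg_left e2 (by positivity))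
    calc ((K : ℝ) * N) ^ K ≤ ((δ * N) ^ 2 * Real.exp (-1)) ^ K :=
          pow_le_pow_left₀ (by positivity) e1 K
      _ = ((δ * N) ^ 2) ^ K * Real.exp (-(K : ℝ)) := by
          rw [mul_pow, ← Real.exp_nat_mul]
          congr 2
          ring
  rw [h6] at h5
  have h8 : 0 < ((δ * N) ^ 2) ^ K := by positivity
  have h9 : (S.card : ℝ) ≤ 2 * H * Real.exp (-(K : ℝ)) := by
    have : (S.card : ℝ) * ((δ * N) ^ 2) ^ K ≤ (2 * H * Real.exp (-(K : ℝ))) * ((δ * N) ^ 2) ^ K := by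
      refine h5.trans ?_
      have := mul_le_mul_of_nonneg_left h7 (by positivity : (0 : ℝ) ≤ 2 * H)
      linarith
    exact le_of_mul_le_mul_right this h8
  refine h9.trans ?_
  have e1 : Real.exp (-(K : ℝ)) ≤ 3 * Real.exp (-(δ ^ 2 * N / 3)) := by
    calc Real.exp (-(K : ℝ)) ≤ Real.exp (1 + -(δ ^ 2 * N / 3)) :=
          Real.exp_le_exp.2 (by linarith)
      _ = Real.exp 1 * Real.exp (-(δ ^ 2 * N / 3)) := Real.exp_add _ _
      _ ≤ 3 * Real.exp (-(δ ^ 2 * N / 3)) := by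
        apply mul_le_mul_of_nonneg_right _ (Real.exp_pos _).le
        have := Real.exp_one_lt_d9
        norm_num at this
        linarith
  have := mul_le_mul_of_nonneg_left e1 (by positivity : (0 : ℝ) ≤ 2 * H)
  linarith

end Pool.Agent.V5helper45.AB
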