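import Pool.Agent.Y957.VK.Stm

/-!
# The factors `WJ` of the bilinear Weyl sums for coefficients of known irrationality type
-/

set_option autoImplicit false

namespace Pool.Agent.V5helper45.AB

open Finset
open Pool.Agent.Y957.VK (dz mn WJ)

lemma sep {a : ℝ} {ρ : ℚ} (h : |a - ρ| ≤ 1 / ((ρ.den : ℝ) ^ 2)) {t : ℤ} (ht0 : t ≠ 0)
    (ht : 2 * |t| ≤ ρ.den) (n : ℤ) : 1 / (2 * (ρ.den : ℝ)) ≤ |a * t - n| := by
  have hq : (0 : ℝ) < ρ.den := by exact_mod_cast ρ.den_pos
  have hne : ρ.num * t - n * ρ.den ≠ 0 := by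
    intro h0
    have h1 : (ρ.den : ℤ) ∣ ρ.num * t := ⟨n, by linarith⟩
    have h2 : IsCoprime (ρ.den : ℤ) ρ.num := by
      rw [Int.isCoprime_iff_nat_coprime]
      simpa using ρ.reduced.symm
    have h3 : (ρ.den : ℤ) ∣ t := h2.dvd_of_dvd_mul_left h1
    have h4 : (ρ.den : ℤ) ≤ |t| := Int.le_of_dvd (abs_pos.2 ht0) ((dvd_abs _ _).2 h3)
    have h5 : (0 : ℤ) < ρ.den := by exact_mod_cast ρ.den_pos
    linarith
  have h1 : (1 : ℝ) ≤ |((ρ.num * t - n * ρ.den : ℤ) : ℝ)| := by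
    rw [← Int.cast_abs]
    exact_mod_cast Int.one_le_abs hne
  have h2 : ((ρ : ℝ) * t - n) = ((ρ.num * t - n * ρ.den : ℤ) : ℝ) / ρ.den := by
    have : (ρ : ℝ) = ρ.num / ρ.den := by exact_mod_cast (Rat.num_div_den ρ).symm
    rw [this]
    push_cast
    field_simp
  have h3 : 1 / (ρ.den : ℝ) ≤ |(ρ : ℝ) * t - n| := by
    rw [h2, abs_div, abs_of_pos hq]
    exact div_le_div_of_nonneg_right h1 hq.le
  have h4 : |(a - ρ) * t| ≤ 1 / (2 * (ρ.den : ℝ)) := by
    rw [abs_mul]
    have h5 : |(t : ℝ)| ≤ ρ.den / 2 := by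
      have : (2 * |(t : ℝ)|) ≤ ρ.den := by
        rw [← Int.cast_abs]
        exact_mod_cast ht
      linarith
    calc |a - ρ| * |(t : ℝ)| ≤ 1 / ((ρ.den : ℝ) ^ 2) * (ρ.den / 2) :=
          mul_le_mul h h5 (abs_nonneg _) (by positivity)
      _ = 1 / (2 * (ρ.den : ℝ)) := by field_simp
  have h5 : (ρ : ℝ) * t - n = (a * t - n) - (a - ρ) * t := by ring
  have h6 : |(ρ : ℝ) * t - n| ≤ |a * t - n| + |(a - ρ) * t| := by
    rw [h5]
    exact abs_sub _ _
  have h7 : 1 / (ρ.den : ℝ) = 2 * (1 / (2 * (ρ.den : ℝ))) := by field_simp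
  linarith

/-- the bound in the cell number `i` -/
noncomputable def gg (V q : ℕ) (i : ℕ) : ℝ := if i = 0 then 2 * V + 1 else q / i

lemma gg_nonneg (V q i : ℕ) : 0 ≤ gg V q i := by
  unfold gg
  split_ifs
  · positivity
  · positivity

lemma mn_cell {V q : ℕ} (hq : 1 ≤ q) (θ : ℝ) {i : ℕ} (hi : i = ⌊2 * q * Int.fract θ⌋₊) :
    mn V θ ≤ gg V q i + gg V q (2 * q - 1 - i) := by
  have hq' : (1 : ℝ) ≤ q := by exact_mod_cast hq
  have hf0 := Int.fract_nonneg θ
  have hf1 := Int.fract_lt_one θ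
  have hmn : mn V θ ≤ 2 * V + 1 := by
    rw [mn]
    split_ifs
    · exact le_rfl
    · exact min_le_left _ _
  have hi1 : (i : ℝ) ≤ 2 * q * Int.fract θ := by
    rw [hi]
    exact Nat.floor_le (by positivity)
  have hi2 : 2 * q * Int.fract θ < i + 1 := by
    rw [hi]
    exact Nat.lt_floor_add_one _
  have hi3 : i < 2 * q := by
    have : (i : ℝ) < 2 * q := by nlinarith
    exact_mod_cast this
  have g1 := gg_nonneg V q i
  have g2 := gg_nonneg V q (2 * q - 1 - i)
  by_cases hi0 : i = 0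
  · have : gg V q i = 2 * V + 1 := by simp [gg, hi0]
    linarith
  by_cases hi0' : 2 * q - 1 - i = 0
  · have : gg V q (2 * q - 1 - i) = 2 * V + 1 := by simp [gg, hi0']
    linarith
  have e1 : gg V q i = q / i := by simp [gg, hi0]
  have e2 : gg V q (2 * q - 1 - i) = q / ((2 * q - 1 - i : ℕ) : ℝ) := by simp [gg, hi0']
  have hip : (1 : ℝ) ≤ i := by
    exact_mod_cast Nat.one_le_iff_ne_zero.2 hi0
  have hip' : (1 : ℝ) ≤ ((2 * q - 1 - i : ℕ) : ℝ) := by
    exact_mod_cast Nat.one_le_iff_ne_zero.2 hi0'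
  have hcast : ((2 * q - 1 - i : ℕ) : ℝ) = 2 * q - 1 - i := by
    rw [Nat.cast_sub (by omega), Nat.cast_sub (by omega)]
    push_cast
    ring
  have hdz : dz θ = min (Int.fract θ) (1 - Int.fract θ) := abs_sub_round_eq_min θ
  have hfp : 0 < Int.fract θ := by
    by_contra hcon
    have : Int.fract θ = 0 := le_antisymm (not_lt.1 hcon) hf0
    rw [this] at hi1
    linarith
  have hfp' : 0 < 1 - Int.fract θ := by linarith
  have hdz0 : dz θ ≠ 0 := by
    rw [hdz]
    exact (lt_min hfp hfp').ne'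
  have h1 : mn V θ ≤ 1 / (2 * dz θ) := by
    rw [mn, if_neg hdz0]
    exact min_le_right _ _
  rcases le_total (Int.fract θ) (1 - Int.fract θ) with hc | hc
  · rw [hdz, min_eq_left hc] at h1
    have h2 : 1 / (2 * Int.fract θ) ≤ q / i := by
      rw [div_le_div_iff₀ (by positivity) (by positivity)]
      linarith
    linarith
  · rw [hdz, min_eq_right hc] at h1
    have h2 : 1 / (2 * (1 - Int.fract θ)) ≤ q / ((2 * q - 1 - i : ℕ) : ℝ) := by
      rw [div_le_div_iff₀ (by positivity) (by positivity), hcast]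
      nlinarith
    linarith

lemma gg_sum (V : ℕ) {q : ℕ} (hq : 1 ≤ q) :
    ∑ i ∈ range (2 * q), gg V q i ≤ 2 * V + 1 + q * (1 + Real.log (2 * q)) := by
  obtain ⟨m, hm⟩ : ∃ m, 2 * q = m + 1 := ⟨2 * q - 1, by omega⟩
  rw [hm, Finset.sum_range_succ']
  have g0 : gg V q 0 = 2 * V + 1 := by simp [gg]
  rw [g0]
  have h3 : ∑ k ∈ Finset.range m, gg V q (k + 1) = q * (harmonic m : ℝ) := by
    rw [harmonic]
    push_cast
    rw [Finset.mul_sum]
    refine Finset.sum_congr rfl fun k _ => ?_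
    simp only [gg, Nat.succ_ne_zero, if_false]
    push_cast
    rw [div_eq_mul_inv]
  have h4 := harmonic_le_one_add_log m
  have h5 : Real.log m ≤ Real.log (2 * q) := by
    rcases Nat.eq_zero_or_pos m with h0 | h0
    · omega
    · apply Real.log_le_log (by exact_mod_cast h0)
      have : (m : ℝ) + 1 = 2 * q := by exact_mod_cast hm.symm
      linarith
  rw [h3]
  have h6 : (q : ℝ) * (harmonic m : ℝ) ≤ q * (1 + Real.log (2 * q)) := by
    apply mul_le_mul_of_nonneg_left _ (Nat.cast_nonneg q)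
    linarith
  linarith

lemma block {a : ℝ} {ρ : ℚ} (h : |a - ρ| ≤ 1 / ((ρ.den : ℝ) ^ 2)) (V : ℕ) (u₀ : ℤ) (m : ℕ)
    (hm : 2 * m ≤ ρ.den + 2) :
    ∑ t ∈ range m, mn V (a * ((u₀ + t : ℤ) : ℝ)) ≤
      2 * (2 * V + 1 + ρ.den * (1 + Real.log (2 * ρ.den))) := by
  classical
  set q := ρ.den with hqdef
  have hq : 1 ≤ q := ρ.den_pos
  have hqR : (1 : ℝ) ≤ q := by exact_mod_cast hq
  set φ : ℕ → ℕ := fun t => ⌊2 * q * Int.fract (a * ((u₀ + t : ℤ) : ℝ))⌋₊ with hφ
  have hφlt : ∀ t, φ t < 2 * q := by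
    intro t
    have h1 := Int.fract_lt_one (a * ((u₀ + t : ℤ) : ℝ))
    have h0 := Int.fract_nonneg (a * ((u₀ + t : ℤ) : ℝ))
    have h2 : (φ t : ℝ) ≤ 2 * q * Int.fract (a * ((u₀ + t : ℤ) : ℝ)) := Nat.floor_le (by positivity)
    have : (φ t : ℝ) < 2 * q := by nlinarith
    exact_mod_cast this
  have hinj : Set.InjOn φ (range m : Finset ℕ) := by
    intro t ht t' ht' htt
    by_contra hne
    rw [Finset.mem_coe, Finset.mem_range] at ht ht'
    set x := a * ((u₀ + t : ℤ) : ℝ) with hx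
    set x' := a * ((u₀ + t' : ℤ) : ℝ) with hx'
    have hs := sep h (t := (t : ℤ) - t') (by omega) (by
      have h1 : |(t : ℤ) - t'| ≤ m - 1 := by
        rw [abs_le]
        constructor <;> omega
      have h2 : (2 * m : ℤ) ≤ ρ.den + 2 := by exact_mod_cast hm
      linarith) (⌊x⌋ - ⌊x'⌋)
    have e1 : a * (((t : ℤ) - t' : ℤ) : ℝ) - ((⌊x⌋ - ⌊x'⌋ : ℤ) : ℝ) = Int.fract x - Int.fract x' := by
      unfold Int.fract
      rw [hx, hx']
      push_cast
      ring
    rw [e1] at hs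
    have h0 := Int.fract_nonneg x
    have h0' := Int.fract_nonneg x'
    have f1 : (φ t : ℝ) ≤ 2 * q * Int.fract x := Nat.floor_le (by positivity)
    have f2 : 2 * q * Int.fract x < φ t + 1 := Nat.lt_floor_add_one _
    have f3 : (φ t' : ℝ) ≤ 2 * q * Int.fract x' := Nat.floor_le (by positivity)
    have f4 : 2 * q * Int.fract x' < φ t' + 1 := Nat.lt_floor_add_one _
    have f5 : (φ t : ℝ) = φ t' := by exact_mod_cast htt
    have f6 : 2 * q * |Int.fract x - Int.fract x'| < 1 := by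
      have : |2 * q * Int.fract x - 2 * q * Int.fract x'| < 1 := by
        rw [abs_lt]
        constructor <;> linarith
      have e2 : 2 * q * Int.fract x - 2 * q * Int.fract x' =
          2 * q * (Int.fract x - Int.fract x') := by ring
      rw [e2, abs_mul, abs_of_nonneg (by positivity : (0 : ℝ) ≤ 2 * q)] at this
      exact this
    have f7 : 2 * (q : ℝ) * (1 / (2 * (ρ.den : ℝ))) = 1 := by
      rw [← hqdef]
      field_simp
    nlinarith
  set F : ℕ → ℝ := fun i => gg V q i + gg V q (2 * q - 1 - i) with hF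
  calc ∑ t ∈ range m, mn V (a * ((u₀ + t : ℤ) : ℝ)) ≤ ∑ t ∈ range m, F (φ t) :=
        Finset.sum_le_sum fun t _ => mn_cell hq _ rfl
    _ = ∑ i ∈ (range m).image φ, F i := (Finset.sum_image hinj).symm
    _ ≤ ∑ i ∈ range (2 * q), F i := by
        apply Finset.sum_le_sum_of_subset_of_nonneg
        · intro i hi
          rw [Finset.mem_image] at hi
          obtain ⟨t, _, rfl⟩ := hi
          exact Finset.mem_range.2 (hφlt t)
        · intro i _ _
          exact add_nonneg (gg_nonneg _ _ _) (gg_nonneg _ _ _)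
    _ = 2 * ∑ i ∈ range (2 * q), gg V q i := by
        rw [hF, Finset.sum_add_distrib, Finset.sum_range_reflect (gg V q) (2 * q)]
        ring
    _ ≤ _ := by
        have := gg_sum V hq
        linarith

lemma sum_blocks (f : ℕ → ℝ) (m : ℕ) (B : ℝ) (h : ∀ b, ∑ t ∈ range m, f (b * m + t) ≤ B) (k : ℕ) :
    ∑ t ∈ range (k * m), f t ≤ k * B := by
  induction k with
  | zero => simp
  | succ k ih =>
    have e : (k + 1) * m = k * m + m := by ring
    rw [e, Finset.sum_range_add]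
    have := h k
    push_cast
    linarith

theorem WJ_le {s M j : ℕ} {a : ℝ} (hs : 1 ≤ s) (hM : 1 ≤ M) {Y : ℝ} (hY : 1 ≤ Y)
    (hdio : ∀ q : ℕ, 1 ≤ q → (q : ℝ) ≤ Y → ∀ p : ℤ, 1 / (M : ℝ) ^ j ≤ |a * q - p|) :
    WJ s M j a ≤ 70 * ((s * M ^ j : ℕ) : ℝ) ^ 2 * (1 + Real.log (s * M ^ j : ℕ)) / Y := by
  have hMj : 1 ≤ M ^ j := Nat.one_le_pow _ _ hM
  have hMjR : (1 : ℝ) ≤ (M : ℝ) ^ j := by exact_mod_cast hMj
  obtain ⟨ρ, h1, h2⟩ := Real.exists_rat_abs_sub_le_and_den_le a (n := M ^ j) (by omega)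
  have hq : 1 ≤ ρ.den := ρ.den_pos
  have hqR : (1 : ℝ) ≤ ρ.den := by exact_mod_cast hq
  have hq2 : (ρ.den : ℝ) ≤ (M : ℝ) ^ j := by exact_mod_cast h2
  push_cast at h1
  have h3 : |a - ρ| ≤ 1 / ((ρ.den : ℝ) ^ 2) := by
    refine h1.trans ?_
    apply one_div_le_one_div_of_le (by positivity)
    nlinarith
  have hqY : Y < ρ.den := by
    by_contra hcon
    push Not at hcon
    have h4 := hdio ρ.den hq hcon ρ.num
    have h5 : a * ρ.den - ρ.num = ρ.den * (a - ρ) := by
      have : (ρ : ℝ) = ρ.num / ρ.den := by exact_mod_cast (Rat.num_div_den ρ).symm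
      rw [this]
      field_simp
    rw [h5, abs_mul, abs_of_pos (by linarith : (0 : ℝ) < ρ.den)] at h4
    have h6 : (ρ.den : ℝ) * |a - ρ| ≤ ρ.den * (1 / (((M : ℝ) ^ j + 1) * ρ.den)) :=
      mul_le_mul_of_nonneg_left h1 (by linarith)
    have h7 : (ρ.den : ℝ) * (1 / (((M : ℝ) ^ j + 1) * ρ.den)) = 1 / ((M : ℝ) ^ j + 1) := by
      field_simp
    have h8 : 1 / ((M : ℝ) ^ j + 1) < 1 / (M : ℝ) ^ j :=
      one_div_lt_one_div_of_lt (by linarith) (by linarith)
    linarith
  set V := s * M ^ j with hVdef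
  have hV : 1 ≤ V := Nat.mul_pos hs hMj
  have hVR : (1 : ℝ) ≤ V := by exact_mod_cast hV
  have hqV : ρ.den ≤ V := h2.trans (Nat.le_mul_of_pos_left _ hs)
  have hqVR : (ρ.den : ℝ) ≤ V := by exact_mod_cast hqV
  set m := ρ.den / 2 + 1 with hm
  set B : ℝ := 2 * (2 * V + 1 + ρ.den * (1 + Real.log (2 * ρ.den))) with hB
  have hlog : 0 ≤ Real.log (2 * ρ.den) := Real.log_nonneg (by linarith)
  have hB0 : 0 ≤ B := by positivity
  set f : ℕ → ℝ := fun t => mn V (a * ((-(V : ℤ) + t : ℤ) : ℝ)) with hf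
  have hmn0 : ∀ θ, 0 ≤ mn V θ := by
    intro θ
    rw [mn]
    split_ifs
    · positivity
    · apply le_min (by positivity)
      have : 0 ≤ dz θ := abs_nonneg _
      positivity
  have hWJ : WJ s M j a = ∑ t ∈ range (2 * V + 1), f t := by
    rw [WJ, ← hVdef]
    symm
    apply Finset.sum_bij (fun (t : ℕ) (_ : t ∈ range (2 * V + 1)) => (-(V : ℤ) + (t : ℤ) : ℤ))
    · intro t ht
      rw [Finset.mem_range] at ht
      rw [Finset.mem_Icc]
      constructor <;> omega
    · intro t _ t' _ h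
      have : (-(V : ℤ) + t : ℤ) = (-(V : ℤ) + t' : ℤ) := h
      omega
    · intro u hu
      rw [Finset.mem_Icc] at hu
      refine ⟨(u + V).toNat, ?_, ?_⟩
      · rw [Finset.mem_range]
        omega
      · have : ((u + V).toNat : ℤ) = u + V := Int.toNat_of_nonneg (by omega)
        rw [this]
        ring
    · intro t _
      rfl
  obtain ⟨k, hk1, hk2⟩ : ∃ k : ℕ, 2 * V + 1 ≤ k * m ∧ (k : ℝ) ≤ 7 * V / ρ.den := by
    refine ⟨(2 * V + 1) / m + 1, ?_, ?_⟩
    · have := Nat.lt_div_mul_add (a := 2 * V + 1) (b := m) (by omega)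
      nlinarith
    · have h5 : (((2 * V + 1) / m : ℕ) : ℝ) ≤ ((2 * V + 1 : ℕ) : ℝ) / m := Nat.cast_div_le
      have h6 : (ρ.den : ℝ) / 2 ≤ m := by
        have : ρ.den ≤ 2 * m := by omega
        have : (ρ.den : ℝ) ≤ 2 * m := by exact_mod_cast this
        linarith
      have h7 : ((2 * V + 1 : ℕ) : ℝ) / m ≤ 6 * V / ρ.den := by
        rw [div_le_div_iff₀ (by positivity) (by positivity)]
        push_cast
        nlinarith
      have h8 : (1 : ℝ) ≤ V / ρ.den := by
        rw [le_div_iff₀ (by linarith)]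
        linarith
      push_cast
      have e : 7 * (V : ℝ) / ρ.den = 6 * V / ρ.den + V / ρ.den := by ring
      rw [e]
      push_cast at h5
      linarith [h5.trans (by push_cast at h7; exact h7)]
  have hsum : ∑ t ∈ range (2 * V + 1), f t ≤ k * B := by
    refine le_trans ?_ (sum_blocks f m B ?_ k)
    · apply Finset.sum_le_sum_of_subset_of_nonneg
      · intro t ht
        rw [Finset.mem_range] at ht ⊢
        omega
      · intro t _ _
        exact hmn0 _
    · intro b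
      have := block h3 V (-(V : ℤ) + ((b * m : ℕ) : ℤ)) m (by omega)
      refine le_trans (le_of_eq ?_) this
      refine Finset.sum_congr rfl fun t _ => ?_
      simp only [hf]
      congr 2
      push_cast
      ring
  have hlogV : Real.log (2 * ρ.den) ≤ 1 + Real.log V := by
    have h5 : Real.log (2 * ρ.den) ≤ Real.log (2 * V) :=
      Real.log_le_log (by positivity) (by linarith)
    have h6 : Real.log (2 * V) = Real.log 2 + Real.log V :=
      Real.log_mul (by norm_num) (by positivity)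
    have h7 := Real.log_two_lt_d9
    norm_num at h7
    linarith
  have hlV : 0 ≤ Real.log V := Real.log_nonneg hVR
  have hB2 : B ≤ 10 * V * (1 + Real.log V) := by
    rw [hB]
    have h5 : (ρ.den : ℝ) * (1 + Real.log (2 * ρ.den)) ≤ V * (2 + Real.log V) := by
      apply mul_le_mul hqVR (by linarith) (by linarith) (by linarith)
    nlinarith [mul_nonneg (by linarith : (0 : ℝ) ≤ V) hlV]
  rw [hWJ]
  calc ∑ t ∈ range (2 * V + 1), f t ≤ k * B := hsum
    _ ≤ 7 * V / ρ.den * (10 * V * (1 + Real.log V)) :=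
        mul_le_mul hk2 hB2 hB0 (by positivity)
    _ = 70 * (V : ℝ) ^ 2 * (1 + Real.log V) / ρ.den := by ring
    _ ≤ 70 * (V : ℝ) ^ 2 * (1 + Real.log V) / Y := by
        apply div_le_div_of_nonneg_left (by positivity) (by linarith) hqY.le

end Pool.Agent.V5helper45.AB
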