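import Pool.Agent.V5helper45.AB.Alg
import Pool.Agent.V5helper45.AB.Dev
import Pool.Agent.V5helper45.AB.Crit

/-!
# Nearly all bases are good for all algebraic numbers of bounded degree and height
-/

set_option autoImplicit false

namespace Pool.Agent.V5helper45.AB

open Finset Filter Polynomial
open Pool.Agent.Y309.VK (ea ea_zero ea_add ea_sum ea_conj)

/-- the real algebraic numbers of degree `d` and height at most `h` -/
def AlgN (d : ℕ) (h : ℝ) : Set ℝ :=
  {x | ∃ P : ℤ[X], Irreducible P ∧ P.natDegree = d ∧ (∀ i, |(P.coeff i : ℝ)| ≤ h) ∧ aeval x P = 0}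

lemma algN_finset (d : ℕ) {h : ℝ} (h1 : 1 ≤ h) :
    ∃ S : Finset ℝ, (∀ x ∈ AlgN d h, x ∈ S) ∧ (S.card : ℝ) ≤ d * (3 * h) ^ (d + 1) := by
  classical
  obtain ⟨B, hB⟩ : ∃ B, B = ⌊h⌋₊ := ⟨_, rfl⟩
  have hB1 : (B : ℝ) ≤ h := by
    rw [hB]
    exact Nat.floor_le (by linarith)
  refine ⟨(Fintype.piFinset fun _ : Fin (d + 1) => Finset.Icc (-(B : ℤ)) B).biUnion fun a =>
    ((∑ i, C (a i) * X ^ (i : ℕ) : ℤ[X]).map (Int.castRingHom ℝ)).roots.toFinset, ?_, ?_⟩
  · rintro x ⟨P, hirr, hPd, hPh, hx⟩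
    rw [Finset.mem_biUnion]
    refine ⟨fun i => P.coeff i, ?_, ?_⟩
    · rw [Fintype.mem_piFinset]
      intro i
      rw [Finset.mem_Icc, ← abs_le]
      have h2 : |P.coeff i| ≤ ⌊h⌋ := by
        rw [Int.le_floor]
        push_cast
        exact hPh i
      have h3 : (B : ℤ) = ⌊h⌋ := by
        rw [hB]
        exact Int.natCast_floor_eq_floor (by linarith)
      rw [h3]
      exact h2
    · have hP : (∑ i : Fin (d + 1), C (P.coeff i) * X ^ (i : ℕ) : ℤ[X]) = P := by
        rw [Fin.sum_univ_eq_sum_range (fun i => C (P.coeff i) * X ^ i) (d + 1)]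
        exact (P.as_sum_range_C_mul_X_pow' (by omega)).symm
      rw [hP, Multiset.mem_toFinset, mem_roots]
      · rw [IsRoot, eval_map, ← algebraMap_int_eq, ← aeval_def]
        exact hx
      · intro h0
        have := (Polynomial.map_eq_zero_iff (f := Int.castRingHom ℝ) Int.cast_injective).1 h0
        exact hirr.ne_zero this
  · have h2 : ∀ a ∈ (Fintype.piFinset fun _ : Fin (d + 1) => Finset.Icc (-(B : ℤ)) B),
        ((∑ i, C (a i) * X ^ (i : ℕ) : ℤ[X]).map (Int.castRingHom ℝ)).roots.toFinset.card ≤ d := by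
      intro a _
      refine (Multiset.toFinset_card_le _).trans ((card_roots' _).trans ?_)
      refine natDegree_map_le.trans ?_
      apply natDegree_sum_le_of_forall_le
      intro i _
      refine (natDegree_C_mul_X_pow_le _ _).trans ?_
      have := i.2
      omega
    have h3 := (Finset.card_biUnion_le_card_mul _ _ d h2)
    rw [Fintype.card_piFinset_const, Int.card_Icc] at h3
    have h4 : ((B : ℤ) + 1 - -(B : ℤ)).toNat = 2 * B + 1 := by omega
    rw [h4] at h3
    have h5 : ((2 * B + 1 : ℕ) : ℝ) ≤ 3 * h := by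
      push_cast
      linarith
    calc _ ≤ (((2 * B + 1) ^ (d + 1) * d : ℕ) : ℝ) := by exact_mod_cast h3
      _ = ((2 * B + 1 : ℕ) : ℝ) ^ (d + 1) * d := by push_cast; ring
      _ ≤ (3 * h) ^ (d + 1) * d := by
        apply mul_le_mul_of_nonneg_right _ (Nat.cast_nonneg _)
        exact pow_le_pow_left₀ (by positivity) h5 _
      _ = _ := by ring

/-- the base `r` is good for `x` up to `N` -/
def GoodN (d k N : ℕ) (ε x : ℝ) (r : ℤ) : Prop :=
  ∀ (s M : ℕ) (a b : Fin (d - 1) → Fin k → ℝ), s + M ≤ N →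
    (∀ i j, 0 ≤ a i j ∧ a i j ≤ b i j ∧ b i j ≤ 1) →
    |(({n : ℕ | s < n ∧ n ≤ s + M ∧ ∀ i j,
        Int.fract (x ^ ((i : ℕ) + 1) * (r : ℝ) ^ (n + (j : ℕ))) ∈ Set.Ico (a i j) (b i j)}.ncard : ℕ) : ℝ) -
      M * ∏ i, ∏ j, (b i j - a i j)| ≤ ε * N

section
variable {d k : ℕ}

/-- the polynomial of a row of the frequency -/
noncomputable def ff (h : Fin (d - 1) × Fin k → ℤ) (j : Fin k) : ℤ[X] :=
  ∑ i : Fin (d - 1), C (h (i, j)) * X ^ ((i : ℕ) + 1)

lemma ff_coeff (h : Fin (d - 1) × Fin k → ℤ) (j : Fin k) (m : ℕ) :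
    (ff h j).coeff m = if hm : 1 ≤ m ∧ m - 1 < d - 1 then h (⟨m - 1, hm.2⟩, j) else 0 := by
  classical
  unfold ff
  rw [finsetSum_coeff]
  simp only [coeff_C_mul, coeff_X_pow, mul_ite, mul_one, mul_zero]
  split_ifs with hm
  · rw [Finset.sum_eq_single (⟨m - 1, hm.2⟩ : Fin (d - 1))]
    · rw [if_pos]
      show m = (m - 1) + 1
      omega
    · intro i _ hi
      rw [if_neg]
      intro h0
      apply hi
      apply Fin.ext
      show (i : ℕ) = m - 1
      omega
    · intro h0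
      exact absurd (Finset.mem_univ _) h0
  · apply Finset.sum_eq_zero
    intro i _
    rw [if_neg]
    intro h0
    apply hm
    have := i.2
    omega

lemma ff_natDegree (h : Fin (d - 1) × Fin k → ℤ) (j : Fin k) : (ff h j).natDegree ≤ d - 1 := by
  rw [natDegree_le_iff_coeff_eq_zero]
  intro m hm
  rw [ff_coeff, dif_neg]
  omega

lemma ff_pos {h : Fin (d - 1) × Fin k → ℤ} {j : Fin k} (h0 : ff h j ≠ 0) :
    1 ≤ (ff h j).natDegree := by
  by_contra hcon
  apply h0
  rw [eq_C_of_natDegree_eq_zero (by omega : (ff h j).natDegree = 0), ff_coeff, dif_neg (by omega),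
    C_0]

lemma ff_ne {h : Fin (d - 1) × Fin k → ℤ} {i : Fin (d - 1)} {j : Fin k} (hh : h (i, j) ≠ 0) :
    ff h j ≠ 0 := by
  intro h0
  have h1 : (ff h j).coeff ((i : ℕ) + 1) = 0 := by rw [h0, coeff_zero]
  rw [ff_coeff, dif_pos (by have := i.2; omega)] at h1
  apply hh
  exact h1

/-- the real polynomial of a frequency -/
noncomputable def Ph (x : ℝ) (h : Fin (d - 1) × Fin k → ℤ) : ℝ[X] :=
  ∑ j : Fin k, C (aeval x (ff h j)) * X ^ (j : ℕ)

lemma Ph_coeff (x : ℝ) (h : Fin (d - 1) × Fin k → ℤ) (m : ℕ) :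
    (Ph x h).coeff m = if hm : m < k then aeval x (ff h ⟨m, hm⟩) else 0 := by
  classical
  unfold Ph
  rw [finsetSum_coeff]
  simp only [coeff_C_mul, coeff_X_pow, mul_ite, mul_one, mul_zero]
  split_ifs with hm
  · rw [Finset.sum_eq_single (⟨m, hm⟩ : Fin k)]
    · rw [if_pos rfl]
    · intro i _ hi
      rw [if_neg]
      intro h0
      apply hi
      apply Fin.ext
      exact h0.symm
    · intro h0
      exact absurd (Finset.mem_univ _) h0
  · apply Finset.sum_eq_zero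
    intro i _
    rw [if_neg]
    intro h0
    apply hm
    have := i.2
    omega

lemma Ph_eval (x : ℝ) (h : Fin (d - 1) × Fin k → ℤ) (r : ℝ) (n : ℕ) :
    (Ph x h).eval r * r ^ n =
      ∑ p : Fin (d - 1) × Fin k, h p * (x ^ ((p.1 : ℕ) + 1) * r ^ (n + (p.2 : ℕ))) := by
  unfold Ph ff
  rw [eval_finsetSum, Finset.sum_mul, Fintype.sum_prod_type_right]
  refine Finset.sum_congr rfl fun j _ => ?_
  rw [eval_mul, eval_C, eval_pow, eval_X, map_sum, Finset.sum_mul, Finset.sum_mul]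
  refine Finset.sum_congr rfl fun i _ => ?_
  rw [map_mul, aeval_C, map_pow, aeval_X, pow_add r n]
  simp
  ring

end

theorem main {d k : ℕ} (hd : 2 ≤ d) {g : ℤ[X]} (hg : 1 ≤ g.natDegree) {ε η : ℝ} (hε : 0 < ε)
    (hη : 0 < η) :
    ∃ c : ℝ, 0 < c ∧ ∃ N₀ : ℕ, ∀ N : ℕ, N₀ ≤ N → ∀ H : ℕ, Real.exp ((N : ℝ) ^ (5 + η)) ≤ H →
      ∀ T : ℤ, (({t : ℤ | T < t ∧ t ≤ T + H ∧ ∃ x ∈ AlgN d (Real.exp (c * N)),
        ¬ GoodN d k N ε x (g.eval t)}.ncard : ℕ) : ℝ) ≤ Real.exp (-(c * N)) * H := by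
  classical
  obtain ⟨S, δ, hδ, hδ1, hS0, hS⟩ := crit (Fin (d - 1) × Fin k) hε
  obtain ⟨L, hL⟩ : ∃ L : ℕ, L = 1 + ∑ h ∈ S, ∑ p, (h p).natAbs := ⟨_, rfl⟩
  have hL1 : 1 ≤ L := by omega
  have hLS : ∀ h ∈ S, ∀ p, |((h p : ℤ) : ℝ)| ≤ L := by
    intro h hh p
    have h1 : (h p).natAbs ≤ ∑ p, (h p).natAbs :=
      Finset.single_le_sum (f := fun p => (h p).natAbs) (fun _ _ => Nat.zero_le _)
        (Finset.mem_univ p)
    have h2 : ∑ p, (h p).natAbs ≤ ∑ h ∈ S, ∑ p, (h p).natAbs :=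
      Finset.single_le_sum (f := fun h : Fin (d - 1) × Fin k → ℤ => ∑ p, (h p).natAbs)
        (fun _ _ => Nat.zero_le _) hh
    have h3 : (h p).natAbs ≤ L := by omega
    rw [← Int.cast_abs, ← Nat.cast_natAbs]
    exact_mod_cast h3
  obtain ⟨κ, hκ0, hκ⟩ := dio_alg hd hL1
  have hd1 : (1 : ℝ) ≤ (d : ℝ) - 1 := by
    have : (2 : ℝ) ≤ d := by exact_mod_cast hd
    linarith
  obtain ⟨N₁, hN₁⟩ := dev hη κ hd1 k g hg hδ hδ1
  -- the constant
  obtain ⟨c, hc⟩ : ∃ c : ℝ, c = δ ^ 2 / (12 * (d + 1)) := ⟨_, rfl⟩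
  have hdp : (0 : ℝ) < (d : ℝ) + 1 := by positivity
  have hc0 : 0 < c := by rw [hc]; positivity
  have hcd : c * (d + 1) = δ ^ 2 / 12 := by
    rw [hc]
    field_simp
  have hc12 : c ≤ δ ^ 2 / 12 := by
    rw [← hcd]
    nlinarith [(Nat.cast_nonneg d : (0 : ℝ) ≤ d)]
  have hc1 : c ≤ 1 := by nlinarith
  -- the union bound is small enough
  have hev : ∀ᶠ N : ℕ in atTop, (d * 3 ^ (d + 1) * 6 * S.card : ℝ) * ((N : ℝ) + 1) ^ 2 ≤
      Real.exp (δ ^ 2 / 12 * N) := by
    set K : ℝ := (d * 3 ^ (d + 1) * 6 * S.card : ℝ) with hK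
    have h1 : Tendsto (fun x : ℝ => (K * (x + 1) ^ 2) / Real.exp (δ ^ 2 / 12 * x)) atTop (nhds 0) := by
      have e1 : (fun x : ℝ => (K * (x + 1) ^ 2) / Real.exp (δ ^ 2 / 12 * x)) =
          fun x : ℝ => K * (x ^ 2 * Real.exp (-(δ ^ 2 / 12) * x) +
            2 * (x ^ 1 * Real.exp (-(δ ^ 2 / 12) * x)) + x ^ 0 * Real.exp (-(δ ^ 2 / 12) * x)) := by
        funext x
        rw [neg_mul, Real.exp_neg]
        field_simp
        ring
      rw [e1]
      have h2 : ∀ n : ℕ, Tendsto (fun x : ℝ => x ^ n * Real.exp (-(δ ^ 2 / 12) * x)) atTop (nhds 0) := by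
        intro n
        have := Real.tendsto_pow_mul_exp_neg_atTop_nhds_zero n
        have h3 : Tendsto (fun x : ℝ => (δ ^ 2 / 12) * x) atTop atTop :=
          Tendsto.const_mul_atTop (by positivity) tendsto_id
        have h4 := (this.comp h3).const_mul ((δ ^ 2 / 12)⁻¹ ^ n)
        rw [mul_zero] at h4
        refine h4.congr fun x => ?_
        simp only [Function.comp]
        rw [mul_pow, ← neg_mul]
        have : (δ ^ 2 / 12)⁻¹ ^ n * (((δ ^ 2 / 12) ^ n * x ^ n) * Real.exp (-(δ ^ 2 / 12) * x)) =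
          ((δ ^ 2 / 12)⁻¹ ^ n * (δ ^ 2 / 12) ^ n) * (x ^ n * Real.exp (-(δ ^ 2 / 12) * x)) := by ring
        rw [this, ← mul_pow, inv_mul_cancel₀ (by positivity), one_pow, one_mul]
      have h3 := (((h2 2).add ((h2 1).const_mul 2)).add (h2 0)).const_mul K
      simpa using h3
    have h2 := h1.eventually (gt_mem_nhds (show (0 : ℝ) < 1 by norm_num))
    have h3 := tendsto_natCast_atTop_atTop (R := ℝ) |>.eventually h2
    filter_upwards [h3] with N hN
    rw [div_lt_one (Real.exp_pos _)] at hN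
    exact hN.le
  obtain ⟨N₂, hN₂⟩ := Filter.eventually_atTop.1 hev
  refine ⟨c, hc0, max N₁ (max N₂ 1), fun N hN H hH T => ?_⟩
  have hNa : N₁ ≤ N := le_of_max_le_left hN
  have hNb : N₂ ≤ N := le_of_max_le_left (le_of_max_le_right hN)
  have hNc : 1 ≤ N := le_of_max_le_right (le_of_max_le_right hN)
  have hN1' : (1 : ℝ) ≤ N := by exact_mod_cast hNc
  have hh1 : 1 ≤ Real.exp (c * N) := Real.one_le_exp (by positivity)
  obtain ⟨R, hR1, hR2⟩ := algN_finset d hh1
  -- the bad sets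
  set bad : ℝ → ℕ × ℕ → (Fin (d - 1) × Fin k → ℤ) → Finset ℕ := fun x w h =>
    (range H).filter fun i : ℕ => δ * N ≤ ‖fW (Finset.Ioc w.1 (w.1 + w.2)) (Ph x h) g ((T + 1 : ℝ) + i)‖
    with hbad
  set Wn : Finset (ℕ × ℕ) := ((range (N + 1)) ×ˢ (range (N + 1))).filter fun w => w.1 + w.2 ≤ N
    with hWn
  have key : ∀ x ∈ AlgN d (Real.exp (c * N)), ∀ w ∈ Wn, ∀ h ∈ S,
      ((bad x w h).card : ℝ) ≤ 6 * H * Real.exp (-(δ ^ 2 * N / 3)) := by
    rintro x ⟨P, hirr, hPd, hPh, hx⟩ w hw h hh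
    have hdio : ∀ j : Fin k, ff h j ≠ 0 → Dio κ ((d : ℝ) - 1) N (aeval x (ff h j)) := by
      intro j hj
      apply hκ N hNc c hc0.le hc1 P hirr hPd hPh x hx (ff h j) (ff_pos hj)
      · have := ff_natDegree h j
        omega
      · intro m
        rw [ff_coeff]
        split_ifs with hm
        · exact hLS h hh _
        · simp
    have hne : ∀ j : Fin k, ff h j ≠ 0 → aeval x (ff h j) ≠ 0 := by
      intro j hj h0
      have h1 := hdio j hj 1 le_rfl 0
      rw [h0] at h1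
      simp at h1
      have := Real.exp_pos (-(κ * N))
      linarith
    have hΦ0 : Ph x h ≠ 0 := by
      obtain ⟨p, hp⟩ : ∃ p, h p ≠ 0 := by
        by_contra hcon
        push Not at hcon
        exact hS0 h hh (funext hcon)
      intro h0
      have h1 : (Ph x h).coeff p.2 = 0 := by rw [h0, coeff_zero]
      rw [Ph_coeff, dif_pos p.2.2] at h1
      exact hne _ (ff_ne (i := p.1) hp) h1
    have hΦk : (Ph x h).natDegree ≤ k := by
      rw [natDegree_le_iff_coeff_eq_zero]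
      intro m hm
      rw [Ph_coeff, dif_neg (by omega)]
    have hlc : Dio κ ((d : ℝ) - 1) N (Ph x h).leadingCoeff := by
      have h1 : (Ph x h).leadingCoeff ≠ 0 := leadingCoeff_ne_zero.2 hΦ0
      rw [leadingCoeff, Ph_coeff] at h1 ⊢
      split_ifs at h1 ⊢ with hm
      · apply hdio
        intro h2
        apply h1
        rw [h2, map_zero]
      · exact absurd rfl h1
    have hw' := (Finset.mem_filter.1 hw).2
    apply hN₁ N hNa H hH (T + 1 : ℝ) (Ph x h) hΦ0 hΦk hlc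
    intro n hn
    rw [Finset.mem_Ioc] at hn
    omega
  -- the bad parameters
  set U : Finset ℕ := R.biUnion fun x => if x ∈ AlgN d (Real.exp (c * N)) then
    Wn.biUnion fun w => S.biUnion fun h => bad x w h else ∅ with hU
  have hUc : (U.card : ℝ) ≤ Real.exp (-(c * N)) * H := by
    have hB0 : 0 ≤ 6 * (H : ℝ) * Real.exp (-(δ ^ 2 * N / 3)) := by positivity
    have h1 : ∀ x ∈ R, (((if x ∈ AlgN d (Real.exp (c * N)) then
        Wn.biUnion fun w => S.biUnion fun h => bad x w h else ∅) : Finset ℕ).card : ℝ) ≤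
        ((N : ℝ) + 1) ^ 2 * (S.card * (6 * H * Real.exp (-(δ ^ 2 * N / 3)))) := by
      intro x _
      split_ifs with hx
      · have h2 : ((Wn.biUnion fun w => S.biUnion fun h => bad x w h).card : ℝ) ≤
            ∑ w ∈ Wn, ∑ h ∈ S, ((bad x w h).card : ℝ) := by
          have h3 : (Wn.biUnion fun w => S.biUnion fun h => bad x w h).card ≤
              ∑ w ∈ Wn, ∑ h ∈ S, (bad x w h).card :=
            Finset.card_biUnion_le.trans (Finset.sum_le_sum fun w _ => Finset.card_biUnion_le)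
          exact_mod_cast h3
        refine h2.trans ?_
        calc ∑ w ∈ Wn, ∑ h ∈ S, ((bad x w h).card : ℝ) ≤
            ∑ w ∈ Wn, ∑ h ∈ S, (6 * H * Real.exp (-(δ ^ 2 * N / 3))) :=
              Finset.sum_le_sum fun w hw => Finset.sum_le_sum fun h hh => key x hx w hw h hh
          _ = (Wn.card : ℝ) * (S.card * (6 * H * Real.exp (-(δ ^ 2 * N / 3)))) := by
              simp only [Finset.sum_const, nsmul_eq_mul]
          _ ≤ _ := by
              apply mul_le_mul_of_nonneg_right _ (by positivity)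
              have h4 : Wn.card ≤ (N + 1) * (N + 1) := by
                refine (Finset.card_filter_le _ _).trans ?_
                rw [Finset.card_product, Finset.card_range]
              calc (Wn.card : ℝ) ≤ (((N + 1) * (N + 1) : ℕ) : ℝ) := by exact_mod_cast h4
                _ = _ := by push_cast; ring
      · simp only [Finset.card_empty, Nat.cast_zero]
        positivity
    have h2 : (U.card : ℝ) ≤ R.card * (((N : ℝ) + 1) ^ 2 *
        (S.card * (6 * H * Real.exp (-(δ ^ 2 * N / 3))))) := by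
      have h3 : (U.card : ℝ) ≤ ∑ x ∈ R, (((if x ∈ AlgN d (Real.exp (c * N)) then
        Wn.biUnion fun w => S.biUnion fun h => bad x w h else ∅) : Finset ℕ).card : ℝ) := by
        exact_mod_cast Finset.card_biUnion_le
      refine h3.trans ((Finset.sum_le_sum h1).trans (le_of_eq ?_))
      rw [Finset.sum_const, nsmul_eq_mul]
    refine h2.trans ?_
    have h3 : (3 * Real.exp (c * N)) ^ (d + 1) = 3 ^ (d + 1) * Real.exp (δ ^ 2 / 12 * N) := by
      rw [mul_pow, ← Real.exp_nat_mul]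
      congr 2
      push_cast
      rw [← hcd]
      ring
    rw [h3] at hR2
    have h4 := hN₂ N hNb
    have h5 : 0 ≤ ((N : ℝ) + 1) ^ 2 * (S.card * (6 * H * Real.exp (-(δ ^ 2 * N / 3)))) := by
      positivity
    calc (R.card : ℝ) * (((N : ℝ) + 1) ^ 2 * (S.card * (6 * H * Real.exp (-(δ ^ 2 * N / 3))))) ≤
        (d * (3 ^ (d + 1) * Real.exp (δ ^ 2 / 12 * N))) *
          (((N : ℝ) + 1) ^ 2 * (S.card * (6 * H * Real.exp (-(δ ^ 2 * N / 3))))) :=
          mul_le_mul_of_nonneg_right hR2 h5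
      _ = ((d * 3 ^ (d + 1) * 6 * S.card : ℝ) * ((N : ℝ) + 1) ^ 2) *
          (Real.exp (δ ^ 2 / 12 * N) * Real.exp (-(δ ^ 2 * N / 3))) * H := by ring
      _ ≤ Real.exp (δ ^ 2 / 12 * N) *
          (Real.exp (δ ^ 2 / 12 * N) * Real.exp (-(δ ^ 2 * N / 3))) * H := by
          gcongr
      _ = Real.exp (-(δ ^ 2 / 6 * N)) * H := by
          rw [← Real.exp_add, ← Real.exp_add]
          congr 2
          ring
      _ ≤ Real.exp (-(c * N)) * H := by
          apply mul_le_mul_of_nonneg_right _ (Nat.cast_nonneg _)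
          apply Real.exp_le_exp.2
          have : c * N ≤ δ ^ 2 / 6 * N := by
            apply mul_le_mul_of_nonneg_right _ (by linarith)
            have : 0 < δ ^ 2 := by positivity
            linarith
          linarith
  -- the covering
  have hcov : {t : ℤ | T < t ∧ t ≤ T + H ∧ ∃ x ∈ AlgN d (Real.exp (c * N)),
      ¬ GoodN d k N ε x (g.eval t)} ⊆ ((U.image fun i : ℕ => T + 1 + (i : ℤ) : Finset ℤ) : Set ℤ) := by
    rintro t ⟨ht1, ht2, x, hx, hbadx⟩
    rw [Finset.mem_coe, Finset.mem_image]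
    obtain ⟨i, hi⟩ : ∃ i : ℕ, T + 1 + (i : ℤ) = t := ⟨(t - (T + 1)).toNat, by omega⟩
    refine ⟨i, ?_, hi⟩
    by_contra hiU
    apply hbadx
    intro s M a b hsM hab
    have hsmall : ∀ h ∈ S, ‖∑ n ∈ Finset.Ioc s (s + M),
        ea (∑ p : Fin (d - 1) × Fin k, h p * (x ^ ((p.1 : ℕ) + 1) *
          ((g.eval t : ℤ) : ℝ) ^ (n + (p.2 : ℕ))))‖ ≤ δ * N := by
      intro h hh
      by_contra hcon
      push Not at hcon
      apply hiU
      rw [hU, Finset.mem_biUnion]
      refine ⟨x, hR1 x hx, ?_⟩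
      rw [if_pos hx, Finset.mem_biUnion]
      refine ⟨(s, M), ?_, ?_⟩
      · rw [hWn, Finset.mem_filter, Finset.mem_product, Finset.mem_range, Finset.mem_range]
        exact ⟨⟨by omega, by omega⟩, hsM⟩
      · rw [Finset.mem_biUnion]
        refine ⟨h, hh, ?_⟩
        rw [hbad]
        simp only
        rw [Finset.mem_filter, Finset.mem_range]
        refine ⟨by omega, ?_⟩
        refine hcon.le.trans (le_of_eq ?_)
        congr 1
        unfold fW
        refine Finset.sum_congr rfl fun n _ => ?_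
        rw [Ph_eval]
        have e1 : ((g.map (Int.castRingHom ℝ)).eval ((T + 1 : ℝ) + i)) = ((g.eval t : ℤ) : ℝ) := by
          have e2 : ((T + 1 : ℝ) + i) = ((t : ℤ) : ℝ) := by
            rw [← hi]
            push_cast
            ring
          rw [e2, eval_intCast_map]
          simp
        rw [e1]
    have hmain := hS N (Finset.Ioc s (s + M)) (fun n p => x ^ ((p.1 : ℕ) + 1) *
      ((g.eval t : ℤ) : ℝ) ^ (n + (p.2 : ℕ))) (by rw [Nat.card_Ioc]; omega) hsmall
      (fun p => a p.1 p.2) (fun p => b p.1 p.2) (fun p => hab p.1 p.2)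
    rw [Fintype.prod_prod_type, Nat.card_Ioc, Nat.add_sub_cancel_left] at hmain
    have hcnt : cnt (Finset.Ioc s (s + M)) (fun n p => x ^ ((p.1 : ℕ) + 1) *
        ((g.eval t : ℤ) : ℝ) ^ (n + (p.2 : ℕ))) (fun p : Fin (d - 1) × Fin k => a p.1 p.2)
        (fun p => b p.1 p.2) = (({n : ℕ | s < n ∧ n ≤ s + M ∧ ∀ (i : Fin (d - 1)) (j : Fin k),
        Int.fract (x ^ ((i : ℕ) + 1) * ((g.eval t : ℤ) : ℝ) ^ (n + (j : ℕ))) ∈
          Set.Ico (a i j) (b i j)}.ncard : ℕ) : ℝ) := by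
      unfold cnt
      rw [← Set.ncard_coe_finset]
      congr 2
      ext n
      simp only [Finset.coe_filter, Finset.mem_Ioc, Set.mem_ofPred_eq, Prod.forall]
      tauto
    rw [hcnt] at hmain
    exact hmain
  have hfin := Set.ncard_le_ncard hcov (Finset.finite_toSet _)
  rw [Set.ncard_coe_finset] at hfin
  calc _ ≤ ((U.image fun i : ℕ => T + 1 + (i : ℤ)).card : ℝ) := by exact_mod_cast hfin
    _ ≤ (U.card : ℝ) := by exact_mod_cast Finset.card_image_le
    _ ≤ _ := hUc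

end Pool.Agent.V5helper45.AB
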