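import Pool.Agent.V5helper45.AB.Weyl

/-!
# High moments of the exponential sums over the powers of a base
-/

set_option autoImplicit false

namespace Pool.Agent.V5helper45.AB

open Finset Filter Polynomial
open Pool.Agent.Y309.VK (ea ea_zero ea_add ea_sum ea_conj)

/-- the difference of two sums of powers -/
noncomputable def QQ {K : ℕ} (n m : Fin K → ℕ) : ℤ[X] := ∑ l, X ^ (n l) - ∑ l, X ^ (m l)

lemma coeff_pw {K : ℕ} (n : Fin K → ℕ) (d : ℕ) :
    (∑ l, (X : ℤ[X]) ^ (n l)).coeff d = (Fintype.card {l // n l = d} : ℤ) := by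
  classical
  rw [finsetSum_coeff]
  simp only [coeff_X_pow]
  rw [Finset.sum_boole, Fintype.card_subtype]
  congr 2
  ext l
  simp only [Finset.mem_filter, Finset.mem_univ, true_and]
  exact eq_comm

lemma exists_perm {K : ℕ} {n m : Fin K → ℕ} (h : QQ n m = 0) :
    ∃ σ : Equiv.Perm (Fin K), m = n ∘ σ := by
  classical
  have h1 : ∀ d, Fintype.card {l // m l = d} = Fintype.card {l // n l = d} := by
    intro d
    have h2 : (QQ n m).coeff d = 0 := by rw [h, coeff_zero]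
    rw [QQ, coeff_sub, coeff_pw, coeff_pw, sub_eq_zero] at h2
    exact_mod_cast h2.symm
  let e : ∀ d, {l // m l = d} ≃ {l // n l = d} := fun d => Fintype.equivOfCardEq (h1 d)
  refine ⟨(Equiv.sigmaFiberEquiv m).symm.trans
    ((Equiv.sigmaCongrRight e).trans (Equiv.sigmaFiberEquiv n)), ?_⟩
  funext l
  exact ((e (m l) ⟨l, rfl⟩).2).symm

lemma card_diag (W : Finset ℕ) (K : ℕ) :
    (((Fintype.piFinset fun _ : Fin K => W) ×ˢ (Fintype.piFinset fun _ : Fin K => W)).filter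
      fun z => QQ z.1 z.2 = 0).card ≤ W.card ^ K * K.factorial := by
  classical
  have h1 : (((Fintype.piFinset fun _ : Fin K => W) ×ˢ (Fintype.piFinset fun _ : Fin K => W)).filter
      fun z => QQ z.1 z.2 = 0) ⊆
      ((Fintype.piFinset fun _ : Fin K => W) ×ˢ (Finset.univ : Finset (Equiv.Perm (Fin K)))).image
        fun z => (z.1, z.1 ∘ z.2) := by
    intro z hz
    rw [Finset.mem_filter, Finset.mem_product] at hz
    obtain ⟨σ, hσ⟩ := exists_perm hz.2
    rw [Finset.mem_image]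
    refine ⟨(z.1, σ), Finset.mem_product.2 ⟨hz.1.1, Finset.mem_univ _⟩, ?_⟩
    exact Prod.ext rfl hσ.symm
  refine (Finset.card_le_card h1).trans (Finset.card_image_le.trans ?_)
  rw [Finset.card_product, Fintype.card_piFinset_const, Finset.card_univ, Fintype.card_perm,
    Fintype.card_fin]

lemma QQ_coeff_le {K : ℕ} (n m : Fin K → ℕ) (d : ℕ) : |(QQ n m).coeff d| ≤ K := by
  classical
  rw [QQ, coeff_sub, coeff_pw, coeff_pw]
  have h1 : Fintype.card {l // n l = d} ≤ K := by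
    simpa using Fintype.card_subtype_le fun l => n l = d
  have h2 : Fintype.card {l // m l = d} ≤ K := by
    simpa using Fintype.card_subtype_le fun l => m l = d
  rw [abs_le]
  constructor <;> omega

lemma QQ_natDegree_le {K : ℕ} {n m : Fin K → ℕ} {N : ℕ} (hn : ∀ l, n l ≤ N) (hm : ∀ l, m l ≤ N) :
    (QQ n m).natDegree ≤ N := by
  unfold QQ
  refine (natDegree_sub_le _ _).trans (max_le ?_ ?_)
  · exact natDegree_sum_le_of_forall_le _ _ fun l _ => by
      rw [natDegree_X_pow]; exact hn l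
  · exact natDegree_sum_le_of_forall_le _ _ fun l _ => by
      rw [natDegree_X_pow]; exact hm l

lemma QQ_natDegree_pos {K : ℕ} {n m : Fin K → ℕ} (hn : ∀ l, 1 ≤ n l) (hm : ∀ l, 1 ≤ m l)
    (h : QQ n m ≠ 0) : 1 ≤ (QQ n m).natDegree := by
  classical
  by_contra hcon
  have h0 : (QQ n m).natDegree = 0 := by omega
  apply h
  rw [eq_C_of_natDegree_eq_zero h0]
  have h1 : (QQ n m).coeff 0 = 0 := by
    rw [QQ, coeff_sub, coeff_pw, coeff_pw]
    have e1 : Fintype.card {l // n l = 0} = 0 := by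
      rw [Fintype.card_eq_zero_iff]
      exact ⟨fun l => by have := hn l.1; have := l.2; omega⟩
    have e2 : Fintype.card {l // m l = 0} = 0 := by
      rw [Fintype.card_eq_zero_iff]
      exact ⟨fun l => by have := hm l.1; have := l.2; omega⟩
    rw [e1, e2]
    simp
  rw [h1, C_0]

/-- the exponential sum for the base `g t` -/
noncomputable def fW (W : Finset ℕ) (Φ : ℝ[X]) (g : ℤ[X]) (t : ℝ) : ℂ :=
  ∑ n ∈ W, ea (Φ.eval ((g.map (Int.castRingHom ℝ)).eval t) *
    ((g.map (Int.castRingHom ℝ)).eval t) ^ n)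

lemma fW_pow (W : Finset ℕ) (Φ : ℝ[X]) (g : ℤ[X]) (t : ℝ) (K : ℕ) :
    ((‖fW W Φ g t‖ ^ (2 * K) : ℝ) : ℂ) =
      ∑ z ∈ (Fintype.piFinset fun _ : Fin K => W) ×ˢ (Fintype.piFinset fun _ : Fin K => W),
        ea (((Φ * (QQ z.1 z.2).map (Int.castRingHom ℝ)).comp (g.map (Int.castRingHom ℝ))).eval t) := by
  classical
  set b := (g.map (Int.castRingHom ℝ)).eval t with hb
  have h1 : ∀ s : ℝ, (∑ n ∈ W, ea (s * (Φ.eval b * b ^ n))) ^ K =
      ∑ p ∈ Fintype.piFinset fun _ : Fin K => W, ea (s * (Φ.eval b * ∑ l, b ^ (p l))) := by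
    intro s
    have h2 := Finset.prod_univ_sum (κ := fun _ : Fin K => ℕ) (fun _ : Fin K => W)
      (fun _ n => ea (s * (Φ.eval b * b ^ n)))
    rw [Finset.prod_const, Finset.card_univ, Fintype.card_fin] at h2
    rw [h2]
    refine Finset.sum_congr rfl fun p _ => ?_
    rw [← ea_sum]
    congr 1
    rw [Finset.mul_sum, Finset.mul_sum]
  have h3 : ((‖fW W Φ g t‖ ^ (2 * K) : ℝ) : ℂ) =
      (∑ n ∈ W, ea (1 * (Φ.eval b * b ^ n))) ^ K * (∑ n ∈ W, ea (-1 * (Φ.eval b * b ^ n))) ^ K := by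
    have h4 : (∑ n ∈ W, ea (-1 * (Φ.eval b * b ^ n))) =
        (starRingEnd ℂ) (∑ n ∈ W, ea (1 * (Φ.eval b * b ^ n))) := by
      rw [map_sum]
      refine Finset.sum_congr rfl fun n _ => ?_
      rw [ea_conj]
      congr 1
      ring
    rw [h4, ← mul_pow, Complex.mul_conj, Complex.normSq_eq_norm_sq]
    have h5 : ∑ n ∈ W, ea (1 * (Φ.eval b * b ^ n)) = fW W Φ g t := by
      unfold fW
      rw [← hb]
      simp only [one_mul]
    rw [h5]
    push_cast
    rw [pow_mul]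
  rw [h3, h1, h1, Finset.sum_mul_sum, Finset.sum_product]
  refine Finset.sum_congr rfl fun p _ => Finset.sum_congr rfl fun p' _ => ?_
  rw [← ea_add]
  congr 1
  rw [eval_comp, ← hb, eval_mul, QQ, Polynomial.map_sub, eval_sub, Polynomial.map_sum,
    Polynomial.map_sum, eval_finsetSum, eval_finsetSum]
  simp only [Polynomial.map_pow, map_X, eval_pow, eval_X]
  ring

/-- the Diophantine condition -/
def Dio (κ A : ℝ) (N : ℕ) (β : ℝ) : Prop :=
  ∀ q : ℕ, 1 ≤ q → ∀ p : ℤ, Real.exp (-(κ * N)) / (q : ℝ) ^ A ≤ |β * q - p|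

lemma Dio.mul {κ A : ℝ} {N : ℕ} {β : ℝ} (h : Dio κ A N β) {c : ℤ} (hc : c ≠ 0) {κ' : ℝ}
    (_hA : 0 ≤ A) (hc' : |(c : ℝ)| ^ A ≤ Real.exp (κ' * N)) : Dio (κ + κ') A N (β * c) := by
  intro q hq p
  have hq' : (1 : ℝ) ≤ q := by exact_mod_cast hq
  have hcn : 1 ≤ c.natAbs := Int.natAbs_pos.2 hc
  have hcabs : ((c.natAbs : ℕ) : ℝ) = |(c : ℝ)| := by
    rw [Nat.cast_natAbs, Int.cast_abs]
  have h1 := h (c.natAbs * q) (Nat.mul_pos hcn hq) (c.sign * p)
  have h2 : |β * ((c.natAbs * q : ℕ) : ℝ) - ((c.sign * p : ℤ) : ℝ)| = |β * c * q - p| := by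
    rcases lt_or_gt_of_ne hc with h0 | h0
    · rw [Int.sign_eq_neg_one_of_neg h0]
      have : ((c.natAbs * q : ℕ) : ℝ) = -c * q := by
        push_cast
        rw [hcabs, abs_of_neg (by exact_mod_cast h0)]
      rw [this, ← abs_neg]
      congr 1
      push_cast
      ring
    · rw [Int.sign_eq_one_of_pos h0]
      have : ((c.natAbs * q : ℕ) : ℝ) = c * q := by
        push_cast
        rw [hcabs, abs_of_pos (by exact_mod_cast h0)]
      rw [this]
      congr 1
      push_cast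
      ring
  rw [h2] at h1
  refine le_trans ?_ h1
  have h3 : 0 < (q : ℝ) ^ A := Real.rpow_pos_of_pos (by linarith) _
  have hcpos : 0 < |(c : ℝ)| := abs_pos.2 (by exact_mod_cast hc)
  have h4 : 0 < |(c : ℝ)| ^ A := Real.rpow_pos_of_pos hcpos _
  have h5 : (((c.natAbs * q : ℕ) : ℝ)) ^ A = |(c : ℝ)| ^ A * (q : ℝ) ^ A := by
    push_cast
    rw [hcabs, Real.mul_rpow (abs_nonneg _) (by linarith)]
  rw [h5, div_le_div_iff₀ h3 (by positivity)]
  have h6 : -((κ + κ') * N) = -(κ * N) + -(κ' * N) := by ring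
  rw [h6, Real.exp_add]
  have h7 : Real.exp (-(κ' * N)) * |(c : ℝ)| ^ A ≤ 1 := by
    rw [Real.exp_neg, inv_mul_eq_div, div_le_one (Real.exp_pos _)]
    exact hc'
  have h8 : 0 ≤ Real.exp (-(κ * N)) * (q : ℝ) ^ A := by positivity
  calc Real.exp (-(κ * N)) * Real.exp (-(κ' * N)) * (|(c : ℝ)| ^ A * (q : ℝ) ^ A) =
      (Real.exp (-(κ * N)) * (q : ℝ) ^ A) * (Real.exp (-(κ' * N)) * |(c : ℝ)| ^ A) := by ring
    _ ≤ (Real.exp (-(κ * N)) * (q : ℝ) ^ A) * 1 := mul_le_mul_of_nonneg_left h7 h8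
    _ = _ := mul_one _

lemma pw_bound {G A : ℝ} (hG : 1 ≤ G) (hA : 0 ≤ A) {k N K D : ℕ} (hN : 1 ≤ N) (hK : K ≤ N)
    (hD : D ≤ k + N) :
    ((K : ℝ) * G ^ D) ^ A ≤ Real.exp ((A * (1 + (k + 1) * Real.log G)) * N) := by
  have hN' : (1 : ℝ) ≤ N := by exact_mod_cast hN
  have hlG : 0 ≤ Real.log G := Real.log_nonneg hG
  have h1 : (K : ℝ) ≤ Real.exp N := by
    have h2 := Real.add_one_le_exp (N : ℝ)
    have h3 : (K : ℝ) ≤ N := by exact_mod_cast hK
    linarith
  have h2 : G ^ D ≤ Real.exp ((k + 1) * Real.log G * N) := by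
    have e1 : G ^ D = Real.exp (D * Real.log G) := by
      rw [Real.exp_nat_mul, Real.exp_log (by linarith)]
    rw [e1]
    apply Real.exp_le_exp.2
    have e2 : (D : ℝ) ≤ (k + 1) * N := by
      have : (D : ℝ) ≤ k + N := by exact_mod_cast hD
      nlinarith [(Nat.cast_nonneg k : (0 : ℝ) ≤ k)]
    nlinarith [mul_le_mul_of_nonneg_right e2 hlG]
  have h3 : (K : ℝ) * G ^ D ≤ Real.exp (N + (k + 1) * Real.log G * N) := by
    rw [Real.exp_add]
    exact mul_le_mul h1 h2 (by positivity) (by positivity)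
  calc ((K : ℝ) * G ^ D) ^ A ≤ (Real.exp (N + (k + 1) * Real.log G * N)) ^ A :=
        Real.rpow_le_rpow (by positivity) h3 hA
    _ = _ := by
      rw [← Real.exp_mul]
      congr 1
      ring

theorem moment {η : ℝ} (hη : 0 < η) {A : ℝ} (κ : ℝ) (hA : 1 ≤ A) (k : ℕ) (g : ℤ[X])
    (hg : 1 ≤ g.natDegree) :
    ∃ N₀ : ℕ, ∀ N : ℕ, N₀ ≤ N → ∀ H : ℕ, Real.exp ((N : ℝ) ^ (5 + η)) ≤ H → ∀ (T : ℝ) (Φ : ℝ[X]),
      Φ ≠ 0 → Φ.natDegree ≤ k → Dio κ A N Φ.leadingCoeff →
      ∀ (W : Finset ℕ), (∀ n ∈ W, 1 ≤ n ∧ n ≤ N) → ∀ K : ℕ, K ≤ N →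
      ∑ i ∈ range H, ‖fW W Φ g (T + i)‖ ^ (2 * K) ≤
        H * ((K.factorial : ℝ) * (W.card : ℝ) ^ K +
          3 * (W.card : ℝ) ^ (2 * K) * Real.exp (-(N : ℝ) ^ (3 / 2 : ℝ))) := by
  classical
  set g' : ℝ[X] := g.map (Int.castRingHom ℝ) with hg'
  have hgd : g'.natDegree = g.natDegree := natDegree_map_eq_of_injective Int.cast_injective _
  have hglc : g'.leadingCoeff = (g.leadingCoeff : ℝ) := by
    rw [leadingCoeff, hgd, hg', coeff_map]
    rfl
  set G : ℝ := |(g.leadingCoeff : ℝ)| with hG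
  have hg0 : g ≠ 0 := by
    rintro rfl
    simp at hg
  have hG1 : 1 ≤ G := by
    rw [hG, ← Int.cast_abs]
    exact_mod_cast Int.one_le_abs (leadingCoeff_ne_zero.2 hg0)
  set κ' : ℝ := A * (1 + (k + 1) * Real.log G) with hκ'
  have hgd' : (1 : ℝ) ≤ g.natDegree := by exact_mod_cast hg
  obtain ⟨N₀, hN₀⟩ := weyl (C := (k + 1) * g.natDegree) (A := A) hη (κ + κ') (by
    have : (0 : ℝ) ≤ k := Nat.cast_nonneg k
    nlinarith) hA
  refine ⟨max N₀ 1, fun N hN H hH T Φ hΦ hΦk hdio W hW K hK => ?_⟩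
  have hN1 : 1 ≤ N := le_of_max_le_right hN
  have hN1' : (1 : ℝ) ≤ N := by exact_mod_cast hN1
  set E := Real.exp (-(N : ℝ) ^ (3 / 2 : ℝ)) with hE
  set P := Fintype.piFinset fun _ : Fin K => W with hP
  set F : (Fin K → ℕ) × (Fin K → ℕ) → ℝ[X] := fun z =>
    (Φ * (QQ z.1 z.2).map (Int.castRingHom ℝ)).comp g' with hF
  have key : ∀ z ∈ P ×ˢ P, ‖∑ i ∈ range H, ea ((F z).eval (T + i))‖ ≤
      (if QQ z.1 z.2 = 0 then (H : ℝ) else 0) + 3 * H * E := by
    intro z hz
    rw [Finset.mem_product, hP, Fintype.mem_piFinset, Fintype.mem_piFinset] at hz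
    split_ifs with hQ
    · refine (norm_sum_le _ _).trans ?_
      refine (Finset.sum_le_card_nsmul _ _ 1 fun i _ => (norm_ea _).le).trans ?_
      simp only [Finset.card_range, nsmul_eq_mul, mul_one]
      have : 0 ≤ 3 * H * E := by positivity
      linarith
    · rw [zero_add]
      set q : ℝ[X] := (QQ z.1 z.2).map (Int.castRingHom ℝ) with hq
      have hqd : q.natDegree = (QQ z.1 z.2).natDegree :=
        natDegree_map_eq_of_injective Int.cast_injective _
      have hqlc : q.leadingCoeff = ((QQ z.1 z.2).leadingCoeff : ℝ) := by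
        rw [leadingCoeff, hqd, hq, coeff_map]
        rfl
      have hq0 : q ≠ 0 := by
        intro h0
        apply hQ
        have := (Polynomial.map_eq_zero_iff (f := Int.castRingHom ℝ) Int.cast_injective).1 h0
        exact this
      have hd1 : (Φ * q).natDegree = Φ.natDegree + q.natDegree := natDegree_mul hΦ hq0
      have hd2 : 1 ≤ q.natDegree := by
        rw [hqd]
        exact QQ_natDegree_pos (fun l => (hW _ (hz.1 l)).1) (fun l => (hW _ (hz.2 l)).1) hQ
      have hd3 : q.natDegree ≤ N := by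
        rw [hqd]
        exact QQ_natDegree_le (fun l => (hW _ (hz.1 l)).2) (fun l => (hW _ (hz.2 l)).2)
      have hd4 : (F z).natDegree = (Φ * q).natDegree * g.natDegree := by
        rw [hF]
        simp only
        rw [natDegree_comp, hgd]
      have hD : (Φ * q).natDegree ≤ k + N := by omega
      have hlc : (F z).leadingCoeff =
          Φ.leadingCoeff * (((QQ z.1 z.2).leadingCoeff *
            g.leadingCoeff ^ (Φ * q).natDegree : ℤ) : ℝ) := by
        rw [hF]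
        simp only
        rw [leadingCoeff_comp (by rw [hgd]; omega), leadingCoeff_mul, hglc, ← hq, hqlc]
        push_cast
        ring
      apply hN₀ N (le_of_max_le_left hN) H hH T (F z)
      · rw [hd4]
        exact Nat.mul_pos (by omega) (by omega)
      · rw [hd4]
        push_cast
        have e1 : ((Φ * q).natDegree : ℝ) ≤ (k + 1) * N := by
          have : ((Φ * q).natDegree : ℝ) ≤ k + N := by exact_mod_cast hD
          nlinarith [(Nat.cast_nonneg k : (0 : ℝ) ≤ k)]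
        nlinarith
      · rw [hlc]
        apply Dio.mul hdio _ (by linarith)
        · rw [hκ']
          refine le_trans ?_ (pw_bound hG1 (by linarith) hN1 hK hD)
          apply Real.rpow_le_rpow (abs_nonneg _) _ (by linarith)
          push_cast
          rw [abs_mul, abs_pow]
          apply mul_le_mul_of_nonneg_right _ (by positivity)
          have := QQ_coeff_le z.1 z.2 (QQ z.1 z.2).natDegree
          rw [← Int.cast_abs]
          exact_mod_cast this
        · exact mul_ne_zero (leadingCoeff_ne_zero.2 hQ) (pow_ne_zero _ (leadingCoeff_ne_zero.2 hg0))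
  have h1 : ((∑ i ∈ range H, ‖fW W Φ g (T + i)‖ ^ (2 * K) : ℝ) : ℂ) =
      ∑ z ∈ P ×ˢ P, ∑ i ∈ range H, ea ((F z).eval (T + i)) := by
    rw [Complex.ofReal_sum, Finset.sum_comm]
    refine Finset.sum_congr rfl fun i _ => ?_
    rw [fW_pow]
  have h2 : ∑ i ∈ range H, ‖fW W Φ g (T + i)‖ ^ (2 * K) ≤
      ∑ z ∈ P ×ˢ P, ((if QQ z.1 z.2 = 0 then (H : ℝ) else 0) + 3 * H * E) := by
    have h3 : (0 : ℝ) ≤ ∑ i ∈ range H, ‖fW W Φ g (T + i)‖ ^ (2 * K) :=
      Finset.sum_nonneg fun i _ => by positivity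
    calc ∑ i ∈ range H, ‖fW W Φ g (T + i)‖ ^ (2 * K) =
        ‖((∑ i ∈ range H, ‖fW W Φ g (T + i)‖ ^ (2 * K) : ℝ) : ℂ)‖ := by
          rw [Complex.norm_real, Real.norm_of_nonneg h3]
      _ ≤ ∑ z ∈ P ×ˢ P, ‖∑ i ∈ range H, ea ((F z).eval (T + i))‖ := by
          rw [h1]
          exact norm_sum_le _ _
      _ ≤ _ := Finset.sum_le_sum key
  refine h2.trans ?_
  rw [Finset.sum_add_distrib, ← Finset.sum_filter, Finset.sum_const, Finset.sum_const,
    nsmul_eq_mul, nsmul_eq_mul, Finset.card_product]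
  have hPc : P.card = W.card ^ K := by rw [hP, Fintype.card_piFinset_const]
  rw [hPc]
  have h4 : ((((P ×ˢ P).filter fun z => QQ z.1 z.2 = 0).card : ℕ) : ℝ) ≤
      ((W.card ^ K * K.factorial : ℕ) : ℝ) := by exact_mod_cast card_diag W K
  have hH0 : (0 : ℝ) ≤ H := Nat.cast_nonneg _
  push_cast at h4 ⊢
  have h5 := mul_le_mul_of_nonneg_right h4 hH0
  have e1 : (W.card : ℝ) ^ (2 * K) = (W.card : ℝ) ^ K * (W.card : ℝ) ^ K := by ring
  rw [e1]
  linarith

end Pool.Agent.V5helper45.AB
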