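import Pool.Agent.V5helper45.AB.MS
import Pool.Agent.Y957.VK.Triv
import Pool.Agent.Y331.VK.Lin
import Pool.Agent.Y331.VK.WB
import Pool.Agent.Y235.VK.Hol
import Pool.Agent.Y950.VK.Cnt
import Pool.Agent.Y911.VK.Cond
import Pool.Agent.Y901.VK.Vmvt
import Pool.Agent.Y309.VK.DA
import Pool.Agent.Y93.VK.DB

/-!
# The bilinear Weyl sums when one coefficient is not well approximable
-/

set_option autoImplicit false

namespace Pool.Agent.V5helper45.AB

open Finset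
open Pool.Agent.Y957.VK
open Pool.Agent.Y901.VK (Ee)

theorem rec_all : S_REC := rec_of Pool.Agent.Y235.VK.hol (Pool.Agent.Y950.VK.cnt Pool.Agent.Y331.VK.lin)

theorem dbl_all : S_DBL := dbl_of Pool.Agent.Y309.VK.da Pool.Agent.Y93.VK.db

theorem J_main {r : ℕ} (hr : 2 ≤ r) (m X : ℕ) (hX : 1 ≤ X) :
    (J (r ^ 2 + r * m) r X : ℝ) ≤ Real.exp (9 * m * ((r : ℝ) + m + 2) ^ 5) * (X : ℝ) ^ Ee r m :=
  Pool.Agent.Y901.VK.main rec_all Pool.Agent.Y911.VK.cond hr m X hX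

lemma prodV (s M : ℕ) (r : ℕ) :
    ∏ i ∈ Icc 1 r, (9 * ((s * M ^ i : ℕ) : ℝ) ^ 2) = (9 * (s : ℝ) ^ 2) ^ r * (M : ℝ) ^ (r * (r + 1)) := by
  induction r with
  | zero => simp
  | succ r ih =>
    rw [Finset.prod_Icc_succ_top (by omega), ih]
    push_cast
    ring

theorem TT_le {r m M j : ℕ} {α : ℕ → ℝ} (hr : 2 ≤ r) (hM : 1 ≤ M) (hj1 : 1 ≤ j) (hjr : j ≤ r)
    {Y : ℝ} (hY : 1 ≤ Y)
    (hdio : ∀ q : ℕ, 1 ≤ q → (q : ℝ) ≤ Y → ∀ p : ℤ, 1 / (M : ℝ) ^ j ≤ |α j * q - p|) :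
    ‖TT r M α‖ ^ (4 * (r ^ 2 + r * m) ^ 2) ≤ (M : ℝ) ^ (8 * (r ^ 2 + r * m) ^ 2) *
      (Real.exp (18 * m * ((r : ℝ) + m + 2) ^ 5) * (9 * ((r ^ 2 + r * m : ℕ) : ℝ) ^ 2) ^ r *
        (M : ℝ) ^ ((r : ℝ) * (r + 1) * (1 - 1 / (r : ℝ)) ^ m) *
        (8 * (1 + Real.log ((r ^ 2 + r * m) * M ^ j : ℕ)) / Y)) := by
  set s := r ^ 2 + r * m with hs
  have hs1 : 1 ≤ s := by
    have : 1 ≤ r ^ 2 := Nat.one_le_pow _ _ (by omega)
    omega
  have hM0 : (0 : ℝ) < M := by exact_mod_cast hM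
  have h1 := dbl_all s r M α hs1 (by omega) hM
  have h2 := J_main hr m M hM
  rw [← hs] at h2
  have hVR : ∀ i, (1 : ℝ) ≤ ((s * M ^ i : ℕ) : ℝ) := fun i => by
    exact_mod_cast Nat.mul_pos hs1 (pow_pos hM i)
  have hWJ0 : ∀ i a, 0 ≤ WJ s M i a := by
    intro i a
    rw [WJ]
    apply Finset.sum_nonneg
    intro u _
    rw [mn]
    split_ifs
    · positivity
    · apply le_min (by positivity)
      have : 0 ≤ dz (a * u) := abs_nonneg _
      positivity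
  have hL0 : 0 ≤ 1 + Real.log (s * M ^ j : ℕ) := by
    have := Real.log_nonneg (hVR j)
    linarith
  have h3 : ∏ i ∈ Icc 1 r, WJ s M i (α i) ≤
      (9 * (s : ℝ) ^ 2) ^ r * (M : ℝ) ^ (r * (r + 1)) *
        (8 * (1 + Real.log (s * M ^ j : ℕ)) / Y) := by
    calc ∏ i ∈ Icc 1 r, WJ s M i (α i) ≤ ∏ i ∈ Icc 1 r, ((9 * ((s * M ^ i : ℕ) : ℝ) ^ 2) *
          (if i = j then 8 * (1 + Real.log (s * M ^ j : ℕ)) / Y else 1)) := by
          apply Finset.prod_le_prod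
          · intro i _
            exact hWJ0 _ _
          · intro i _
            split_ifs with hij
            · subst hij
              refine (WJ_le hs1 hM hY hdio).trans ?_
              rw [mul_div_assoc', div_le_div_iff_of_pos_right (by linarith)]
              have : 0 ≤ ((s * M ^ i : ℕ) : ℝ) ^ 2 * (1 + Real.log (s * M ^ i : ℕ)) := by positivity
              nlinarith
            · rw [mul_one]
              refine ((Pool.Agent.Y331.VK.wb s M i (α i) hs1 hM).1).trans ?_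
              have := hVR i
              nlinarith
      _ = _ := by
          rw [Finset.prod_mul_distrib, prodV, Finset.prod_ite_eq' (Icc 1 r) j]
          rw [if_pos (Finset.mem_Icc.2 ⟨hj1, hjr⟩)]
  have h4 : (J s r M : ℝ) ^ 2 ≤ (Real.exp (9 * m * ((r : ℝ) + m + 2) ^ 5) * (M : ℝ) ^ Ee r m) ^ 2 :=
    pow_le_pow_left₀ (Nat.cast_nonneg _) h2 2
  have hP0 : 0 ≤ ∏ i ∈ Icc 1 r, WJ s M i (α i) := Finset.prod_nonneg fun i _ => hWJ0 _ _
  calc ‖TT r M α‖ ^ (4 * s ^ 2) ≤ (M : ℝ) ^ (8 * s ^ 2 - 4 * s) * (J s r M : ℝ) ^ 2 *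
        ∏ j ∈ Finset.Icc 1 r, WJ s M j (α j) := h1
    _ ≤ (M : ℝ) ^ (8 * s ^ 2 - 4 * s) *
        (Real.exp (9 * m * ((r : ℝ) + m + 2) ^ 5) * (M : ℝ) ^ Ee r m) ^ 2 *
        ((9 * (s : ℝ) ^ 2) ^ r * (M : ℝ) ^ (r * (r + 1)) *
        (8 * (1 + Real.log (s * M ^ j : ℕ)) / Y)) := by
        apply mul_le_mul _ h3 hP0 (by positivity)
        exact mul_le_mul_of_nonneg_left h4 (by positivity)
    _ = _ := by
        have e1 : Real.exp (18 * m * ((r : ℝ) + m + 2) ^ 5) =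
            Real.exp (9 * m * ((r : ℝ) + m + 2) ^ 5) ^ 2 := by
          rw [← Real.exp_nat_mul]
          congr 1
          push_cast
          ring
        have e2 : (M : ℝ) ^ (8 * s ^ 2 - 4 * s) * ((M : ℝ) ^ Ee r m) ^ 2 * (M : ℝ) ^ (r * (r + 1)) =
            (M : ℝ) ^ (8 * s ^ 2) * (M : ℝ) ^ ((r : ℝ) * (r + 1) * (1 - 1 / (r : ℝ)) ^ m) := by
          rw [← Real.rpow_natCast (M : ℝ) (8 * s ^ 2 - 4 * s), ← Real.rpow_natCast ((M : ℝ) ^ Ee r m) 2,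
            ← Real.rpow_mul hM0.le, ← Real.rpow_natCast (M : ℝ) (r * (r + 1)),
            ← Real.rpow_natCast (M : ℝ) (8 * s ^ 2), ← Real.rpow_add hM0, ← Real.rpow_add hM0,
            ← Real.rpow_add hM0]
          congr 1
          have hle : 4 * s ≤ 8 * s ^ 2 := by nlinarith
          rw [Nat.cast_sub hle]
          unfold Ee
          rw [hs]
          push_cast
          ring
        rw [e1, mul_pow]
        calc _ = ((M : ℝ) ^ (8 * s ^ 2 - 4 * s) * ((M : ℝ) ^ Ee r m) ^ 2 * (M : ℝ) ^ (r * (r + 1))) *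
              (Real.exp (9 * m * ((r : ℝ) + m + 2) ^ 5) ^ 2 * (9 * (s : ℝ) ^ 2) ^ r *
                (8 * (1 + Real.log (s * M ^ j : ℕ)) / Y)) := by ring
          _ = _ := by
            rw [e2]
            ring

end Pool.Agent.V5helper45.AB
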