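import Pool.Agent.V5helper45.AB.TTb

/-!
# The bilinear Weyl sums of degree up to `C N` for ranges of length `exp (N ^ (5 + η))`
-/

set_option autoImplicit false

namespace Pool.Agent.V5helper45.AB

open Finset Filter
open Pool.Agent.Y957.VK

/-- the number of rounds -/
noncomputable def ll (C θ : ℝ) (N : ℕ) : ℕ := ⌈Real.log (16 * (C * N + 3) / θ)⌉₊

lemma ll_ev {η : ℝ} (hη : 0 < η) {C θ : ℝ} (hC : 1 ≤ C) (hθ : 0 < θ) (hθ1 : θ ≤ 1) (K : ℝ) :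
    ∀ᶠ N : ℕ in atTop, K * ((ll C θ N : ℝ) + 2) ^ 6 ≤ (N : ℝ) ^ η := by
  set c₃ : ℝ := Real.log (64 * C / θ) + 3 with hc3
  have h1 : (fun x : ℝ => Real.log x + c₃) =o[atTop] fun x : ℝ => x ^ (η / 6) := by
    apply Asymptotics.IsLittleO.add (isLittleO_log_rpow_atTop (by positivity))
    rw [Asymptotics.isLittleO_const_left]
    right
    have : Tendsto (fun x : ℝ => x ^ (η / 6)) atTop atTop := tendsto_rpow_atTop (by positivity)
    exact tendsto_norm_atTop_atTop.comp this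
  have h2 : (fun x : ℝ => (Real.log x + c₃) ^ 6) =o[atTop] fun x : ℝ => (x ^ (η / 6)) ^ 6 :=
    h1.pow (by norm_num)
  have h3 := h2.def (c := 1 / (|K| + 1)) (by positivity)
  have h4 := tendsto_natCast_atTop_atTop (R := ℝ) |>.eventually h3
  filter_upwards [h4, Filter.eventually_ge_atTop 1] with N hN hN1
  have hN1' : (1 : ℝ) ≤ N := by exact_mod_cast hN1
  have hll : (ll C θ N : ℝ) + 2 ≤ Real.log N + c₃ := by
    have e1 : 0 < 16 * (C * N + 3) / θ := by positivity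
    have e2 : (ll C θ N : ℝ) ≤ Real.log (16 * (C * N + 3) / θ) + 1 := by
      apply (Nat.ceil_lt_add_one _).le
      apply Real.log_nonneg
      rw [le_div_iff₀ hθ]
      nlinarith
    have e3 : Real.log (16 * (C * N + 3) / θ) ≤ Real.log (64 * C / θ * N) := by
      apply Real.log_le_log e1
      rw [div_mul_eq_mul_div]
      apply div_le_div_of_nonneg_right _ hθ.le
      nlinarith
    have e4 : Real.log (64 * C / θ * N) = Real.log (64 * C / θ) + Real.log N :=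
      Real.log_mul (by positivity) (by positivity)
    rw [hc3]
    linarith
  have hl0 : 0 ≤ (ll C θ N : ℝ) + 2 := by positivity
  have e5 : ((ll C θ N : ℝ) + 2) ^ 6 ≤ (Real.log N + c₃) ^ 6 := pow_le_pow_left₀ hl0 hll 6
  have e6 : ((N : ℝ) ^ (η / 6)) ^ 6 = (N : ℝ) ^ η := by
    rw [← Real.rpow_natCast, ← Real.rpow_mul (by linarith)]
    congr 1
    push_cast
    ring
  rw [e6, Real.norm_of_nonneg (by positivity), Real.norm_of_nonneg (by positivity)] at hN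
  have hK : 0 < |K| + 1 := by positivity
  have e7 : (|K| + 1) * (Real.log N + c₃) ^ 6 ≤ (N : ℝ) ^ η := by
    rw [one_div, inv_mul_eq_div, le_div_iff₀ hK] at hN
    linarith
  have e8 : 0 ≤ ((ll C θ N : ℝ) + 2) ^ 6 := by positivity
  calc K * ((ll C θ N : ℝ) + 2) ^ 6 ≤ (|K| + 1) * ((ll C θ N : ℝ) + 2) ^ 6 := by
        apply mul_le_mul_of_nonneg_right _ e8
        linarith [le_abs_self K]
    _ ≤ (|K| + 1) * (Real.log N + c₃) ^ 6 := by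
        apply mul_le_mul_of_nonneg_left e5 hK.le
    _ ≤ _ := e7

lemma qA {r l n T : ℝ} (hr : 2 ≤ r) (hl : 0 ≤ l) (hrn : r ≤ 2 * n)
    (h : 8192 * (r ^ 5 * (l + 2) ^ 6) ≤ T) :
    18 * (r * l) * (r + r * l + 2) ^ 5 ≤ n * T / 8 := by
  have hn : 0 ≤ n := by linarith
  have e1 : r + r * l + 2 ≤ r * (l + 2) := by nlinarith
  have e2 : (r + r * l + 2) ^ 5 ≤ (r * (l + 2)) ^ 5 := pow_le_pow_left₀ (by positivity) e1 5
  have e3 : 18 * (r * l) ≤ 18 * (r * (l + 2)) := by nlinarith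
  have e4 := mul_le_mul_of_nonneg_right h hn
  calc 18 * (r * l) * (r + r * l + 2) ^ 5 ≤ 18 * (r * (l + 2)) * (r * (l + 2)) ^ 5 :=
        mul_le_mul e3 e2 (by positivity) (by positivity)
    _ = 18 * (r ^ 5 * (l + 2) ^ 6) * r := by ring
    _ ≤ 18 * (r ^ 5 * (l + 2) ^ 6) * (2 * n) := mul_le_mul_of_nonneg_left hrn (by positivity)
    _ = (36 / 8192) * (8192 * (r ^ 5 * (l + 2) ^ 6) * n) := by ring
    _ ≤ (36 / 8192) * (T * n) := by linarith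
    _ ≤ n * T / 8 := by
      have : 0 ≤ T * n := by
        have : 0 ≤ T := le_trans (by positivity) h
        positivity
      linarith

lemma qB {r n s T : ℝ} (hs : 0 ≤ s) (hn : 0 ≤ n) (hrn : r ≤ 2 * n) (h : 8192 * s ≤ T) :
    r * (6 * s) ≤ n * T / 16 := by
  have e4 := mul_le_mul_of_nonneg_right h hn
  calc r * (6 * s) ≤ 2 * n * (6 * s) := mul_le_mul_of_nonneg_right hrn (by positivity)
    _ = 12 / 8192 * (8192 * s * n) := by ring
    _ ≤ 12 / 8192 * (T * n) := by linarith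
    _ ≤ n * T / 16 := by
      have : 0 ≤ T * n := by
        have : 0 ≤ T := le_trans (by positivity) h
        positivity
      linarith

lemma qC {θ n L s : ℝ} (hn : 1 ≤ n) (hL : 1 ≤ L) (hs : s ≤ L) (h : 12288 ≤ θ ^ 2 * L) :
    8 * (1 + (s + n * L)) ≤ (θ * n * L / 16) ^ 2 / 2 := by
  have e4 : s ≤ n * L := by nlinarith
  have e5 : 1 ≤ n * L := by nlinarith
  have e6 : 12288 ≤ θ ^ 2 * (n * L) := by
    have : L ≤ n * L := by nlinarith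
    nlinarith [mul_le_mul_of_nonneg_left this (by positivity : (0 : ℝ) ≤ θ ^ 2)]
  have this : (θ * n * L / 16) ^ 2 / 2 = θ ^ 2 * (n * L) * (n * L) / 512 := by ring
  rw [this]
  have := mul_le_mul_of_nonneg_right e6 (by linarith : (0 : ℝ) ≤ n * L)
  linarith

lemma qD {C N r l n s T Z : ℝ} (hC : 1 ≤ C) (hN : 1 ≤ N) (hr : 2 ≤ r) (hl : 0 ≤ l)
    (hrn : r ≤ 2 * n) (hrR : r ≤ (C + 2) * N) (hs : s = r ^ 2 * (1 + l)) (hZ0 : 0 ≤ Z)
    (hZ : Z ≤ N ^ 2) (h : 8192 * ((C + 2) ^ 5 * (l + 2) ^ 6 * N ^ 5) ≤ T) :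
    Z * (4 * s ^ 2) ≤ n * T / 2 := by
  have hn : 0 ≤ n := by linarith
  have e2 : r ^ 3 ≤ (C + 2) ^ 5 * N ^ 3 := by
    calc r ^ 3 ≤ ((C + 2) * N) ^ 3 := pow_le_pow_left₀ (by positivity) hrR 3
      _ = (C + 2) ^ 3 * N ^ 3 := by ring
      _ ≤ (C + 2) ^ 5 * N ^ 3 := by
        apply mul_le_mul_of_nonneg_right _ (by positivity)
        exact pow_le_pow_right₀ (by linarith) (by norm_num)
  have e3 : (1 + l) ^ 2 ≤ (l + 2) ^ 6 := by
    calc (1 + l) ^ 2 ≤ (l + 2) ^ 2 := pow_le_pow_left₀ (by positivity) (by linarith) 2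
      _ ≤ (l + 2) ^ 6 := pow_le_pow_right₀ (by linarith) (by norm_num)
  have e5 : Z * (r ^ 3 * (1 + l) ^ 2) ≤ (C + 2) ^ 5 * (l + 2) ^ 6 * N ^ 5 := by
    calc Z * (r ^ 3 * (1 + l) ^ 2) ≤ N ^ 2 * (((C + 2) ^ 5 * N ^ 3) * (l + 2) ^ 6) :=
          mul_le_mul hZ (mul_le_mul e2 e3 (by positivity) (by positivity)) (by positivity)
            (by positivity)
      _ = _ := by ring
  have e6 : 8192 * (Z * (r ^ 3 * (1 + l) ^ 2)) ≤ T := by linarith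
  have e8 : 0 ≤ Z * (r ^ 3 * (1 + l) ^ 2) := by positivity
  have e9 := mul_le_mul_of_nonneg_right e6 hn
  calc Z * (4 * s ^ 2) = 4 * (Z * (r ^ 3 * (1 + l) ^ 2)) * r := by rw [hs]; ring
    _ ≤ 4 * (Z * (r ^ 3 * (1 + l) ^ 2)) * (2 * n) := mul_le_mul_of_nonneg_left hrn (by positivity)
    _ = 8 / 8192 * (8192 * (Z * (r ^ 3 * (1 + l) ^ 2)) * n) := by ring
    _ ≤ 8 / 8192 * (T * n) := by linarith
    _ ≤ n * T / 2 := by
      have : 0 ≤ T * n := by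
        have : 0 ≤ T := le_trans (by positivity) e6
        positivity
      linarith

lemma qE {s : ℝ} (hs : 0 ≤ s) : 9 * s ^ 2 ≤ Real.exp (6 * s) := by
  have e2 : 3 * s ≤ Real.exp (3 * s) := by
    have := Real.add_one_le_exp (3 * s)
    linarith
  calc 9 * s ^ 2 = (3 * s) ^ 2 := by ring
    _ ≤ (Real.exp (3 * s)) ^ 2 := pow_le_pow_left₀ (by positivity) e2 2
    _ = Real.exp (6 * s) := by
      rw [← Real.exp_nat_mul]
      congr 1
      push_cast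
      ring

lemma qF {C θ : ℝ} {N r l : ℕ} (hC : 1 ≤ C) (hθ : 0 < θ) (hr : 2 ≤ r)
    (hrR : (r : ℝ) + 1 ≤ C * N + 3) (hl : l = ll C θ N) :
    (r : ℝ) * (r + 1) * (1 - 1 / (r : ℝ)) ^ (r * l) ≤ θ * r / 16 := by
  have hr' : (2 : ℝ) ≤ r := by exact_mod_cast hr
  have e0 : 0 ≤ 1 - 1 / (r : ℝ) := by
    rw [sub_nonneg, div_le_one (by linarith)]
    linarith
  have e1 : 1 - 1 / (r : ℝ) ≤ Real.exp (-(1 / (r : ℝ))) := by
    have := Real.add_one_le_exp (-(1 / (r : ℝ)))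
    linarith
  have e2 : (1 - 1 / (r : ℝ)) ^ (r * l) ≤ Real.exp (-(l : ℝ)) := by
    calc (1 - 1 / (r : ℝ)) ^ (r * l) ≤ (Real.exp (-(1 / (r : ℝ)))) ^ (r * l) :=
          pow_le_pow_left₀ e0 e1 _
      _ = Real.exp (-(l : ℝ)) := by
        rw [← Real.exp_nat_mul]
        congr 1
        push_cast
        field_simp
  have hpos : (0 : ℝ) < C * N + 3 := by
    have : (0 : ℝ) ≤ C * N := by positivity
    linarith
  have e3 : Real.exp (-(l : ℝ)) ≤ θ / (16 * (C * N + 3)) := by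
    have h5 : Real.log (16 * (C * N + 3) / θ) ≤ l := by
      rw [hl]
      exact Nat.le_ceil _
    have h6 : 0 < 16 * (C * N + 3) / θ := by positivity
    calc Real.exp (-(l : ℝ)) ≤ Real.exp (-Real.log (16 * (C * N + 3) / θ)) :=
          Real.exp_le_exp.2 (by linarith)
      _ = θ / (16 * (C * N + 3)) := by
        rw [Real.exp_neg, Real.exp_log h6, inv_div]
  have e4 : θ / (16 * (C * N + 3)) ≤ θ / (16 * (r + 1)) := by
    apply div_le_div_of_nonneg_left hθ.le (by positivity)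
    linarith
  calc (r : ℝ) * (r + 1) * (1 - 1 / (r : ℝ)) ^ (r * l) ≤ (r : ℝ) * (r + 1) * (θ / (16 * (r + 1))) :=
        mul_le_mul_of_nonneg_left ((e2.trans e3).trans e4) (by positivity)
    _ = θ * r / 16 := by field_simp

/-- the exponent: from the bound for the power of the bilinear sum to the bilinear sum -/
lemma core {r m M n : ℕ} {α : ℕ → ℝ} {θ L Z : ℝ} (hr : 2 ≤ r) (hM : 1 ≤ M) (hL : L = Real.log M)
    (hn1 : 1 ≤ n) (hnr : n ≤ r) (hθ : 0 < θ) (hL0 : 0 < L)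
    (hdio : ∀ q : ℕ, 1 ≤ q → (q : ℝ) ≤ (M : ℝ) ^ (θ * n) → ∀ p : ℤ, 1 / (M : ℝ) ^ n ≤ |α n * q - p|)
    (f1 : 18 * (m : ℝ) * ((r : ℝ) + m + 2) ^ 5 ≤ θ * n * L / 8)
    (f2 : (r : ℝ) * (6 * (r ^ 2 + r * m : ℕ)) ≤ θ * n * L / 16)
    (f3 : (r : ℝ) * (r + 1) * (1 - 1 / (r : ℝ)) ^ m ≤ θ * n / 8)
    (f4 : 8 * (1 + (((r ^ 2 + r * m : ℕ) : ℝ) + n * L)) ≤ (θ * n * L / 16) ^ 2 / 2)
    (f6 : Z * (4 * ((r ^ 2 + r * m : ℕ) : ℝ) ^ 2) ≤ θ * n * L / 2) :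
    ‖TT r M α‖ ≤ (M : ℝ) ^ 2 * Real.exp (-Z) := by
  have hM0 : (0 : ℝ) < M := by exact_mod_cast hM
  have hY1 : (1 : ℝ) ≤ (M : ℝ) ^ (θ * n) :=
    Real.one_le_rpow (by exact_mod_cast hM) (by positivity)
  have hmain := TT_le (r := r) (m := m) (M := M) (j := n) (α := α) hr hM hn1 hnr hY1 hdio
  set s := r ^ 2 + r * m with hs
  have hs1 : 1 ≤ s := by
    have : 1 ≤ r ^ 2 := Nat.one_le_pow _ _ (by omega)
    omega
  have hs1' : (1 : ℝ) ≤ s := by exact_mod_cast hs1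
  have g2 : (9 * (s : ℝ) ^ 2) ^ r ≤ Real.exp (θ * n * L / 16) := by
    calc (9 * (s : ℝ) ^ 2) ^ r ≤ (Real.exp (6 * s)) ^ r :=
          pow_le_pow_left₀ (by positivity) (qE (by positivity)) r
      _ = Real.exp (r * (6 * s)) := by rw [← Real.exp_nat_mul]
      _ ≤ _ := Real.exp_le_exp.2 f2
  have g3 : (M : ℝ) ^ ((r : ℝ) * (r + 1) * (1 - 1 / (r : ℝ)) ^ m) ≤ Real.exp (θ * n * L / 8) := by
    rw [Real.rpow_def_of_pos hM0, ← hL]
    apply Real.exp_le_exp.2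
    have := mul_le_mul_of_nonneg_left f3 hL0.le
    linarith
  have hVR : (1 : ℝ) ≤ ((s * M ^ n : ℕ) : ℝ) := by
    exact_mod_cast Nat.mul_pos hs1 (pow_pos hM n)
  have g4 : 8 * (1 + Real.log (s * M ^ n : ℕ)) ≤ Real.exp (θ * n * L / 16) := by
    have e1 : Real.log (s * M ^ n : ℕ) = Real.log s + n * L := by
      push_cast
      rw [Real.log_mul (by positivity) (by positivity), Real.log_pow, hL]
    have e2 : Real.log s ≤ s := (Real.log_le_sub_one_of_pos (by linarith)).trans (by linarith)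
    have e3 : (θ * n * L / 16) ^ 2 / 2 ≤ Real.exp (θ * n * L / 16) := by
      have h0 : 0 ≤ θ * n * L / 16 := by positivity
      have := Real.quadratic_le_exp_of_nonneg h0
      linarith
    rw [e1]
    linarith
  have g5 : 1 / (M : ℝ) ^ (θ * n) = Real.exp (-(θ * n * L)) := by
    rw [Real.rpow_def_of_pos hM0, one_div, ← Real.exp_neg, ← hL]
    congr 1
    ring
  have hV0 : 0 ≤ 8 * (1 + Real.log (s * M ^ n : ℕ)) := by
    have := Real.log_nonneg hVR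
    positivity
  have hE : Real.exp (18 * m * ((r : ℝ) + m + 2) ^ 5) * (9 * (s : ℝ) ^ 2) ^ r *
        (M : ℝ) ^ ((r : ℝ) * (r + 1) * (1 - 1 / (r : ℝ)) ^ m) *
        (8 * (1 + Real.log (s * M ^ n : ℕ)) / (M : ℝ) ^ (θ * n)) ≤ Real.exp (-(θ * n * L / 2)) := by
    calc Real.exp (18 * m * ((r : ℝ) + m + 2) ^ 5) * (9 * (s : ℝ) ^ 2) ^ r *
        (M : ℝ) ^ ((r : ℝ) * (r + 1) * (1 - 1 / (r : ℝ)) ^ m) *
        (8 * (1 + Real.log (s * M ^ n : ℕ)) / (M : ℝ) ^ (θ * n))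
        = Real.exp (18 * m * ((r : ℝ) + m + 2) ^ 5) * (9 * (s : ℝ) ^ 2) ^ r *
        (M : ℝ) ^ ((r : ℝ) * (r + 1) * (1 - 1 / (r : ℝ)) ^ m) *
        ((8 * (1 + Real.log (s * M ^ n : ℕ))) * (1 / (M : ℝ) ^ (θ * n))) := by ring
      _ ≤ Real.exp (θ * n * L / 8) * Real.exp (θ * n * L / 16) * Real.exp (θ * n * L / 8) *
          (Real.exp (θ * n * L / 16) * Real.exp (-(θ * n * L))) := by
          rw [g5]
          have k1 := Real.exp_le_exp.2 f1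
          have k2 := mul_le_mul k1 g2 (by positivity) (Real.exp_pos _).le
          have k3 := mul_le_mul k2 g3 (by positivity) (by positivity)
          exact mul_le_mul k3 (mul_le_mul_of_nonneg_right g4 (Real.exp_pos _).le)
            (mul_nonneg hV0 (Real.exp_pos _).le) (by positivity)
      _ = Real.exp (θ * n * L / 8 + θ * n * L / 16 + θ * n * L / 8 +
            (θ * n * L / 16 + -(θ * n * L))) := by
          rw [Real.exp_add, Real.exp_add, Real.exp_add, Real.exp_add]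
      _ ≤ _ := by
          apply Real.exp_le_exp.2
          have : 0 ≤ θ * n * L := by positivity
          linarith
  have hfin : ‖TT r M α‖ ^ (4 * s ^ 2) ≤
      ((M : ℝ) ^ 2 * Real.exp (-Z)) ^ (4 * s ^ 2) := by
    calc ‖TT r M α‖ ^ (4 * s ^ 2) ≤ (M : ℝ) ^ (8 * s ^ 2) * Real.exp (-(θ * n * L / 2)) :=
          hmain.trans (mul_le_mul_of_nonneg_left hE (by positivity))
      _ ≤ (M : ℝ) ^ (8 * s ^ 2) * Real.exp (-(Z * (4 * (s : ℝ) ^ 2))) := by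
          apply mul_le_mul_of_nonneg_left _ (by positivity)
          apply Real.exp_le_exp.2
          linarith
      _ = _ := by
          rw [mul_pow, ← pow_mul, ← Real.exp_nat_mul]
          congr 2
          · ring
          · push_cast
            ring
  exact le_of_pow_le_pow_left₀ (by positivity) (by positivity) hfin

theorem TT_fin {η : ℝ} (hη : 0 < η) {C θ : ℝ} (hC : 1 ≤ C) (hθ : 0 < θ) (hθ1 : θ ≤ 1) :
    ∃ N₀ : ℕ, ∀ N : ℕ, N₀ ≤ N → ∀ M : ℕ, (N : ℝ) ^ (5 + η) / 5 ≤ Real.log M →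
      ∀ n : ℕ, 1 ≤ n → (n : ℝ) ≤ C * N → ∀ α : ℕ → ℝ,
      (∀ q : ℕ, 1 ≤ q → (q : ℝ) ≤ (M : ℝ) ^ (θ * n) → ∀ p : ℤ, 1 / (M : ℝ) ^ n ≤ |α n * q - p|) →
      ‖TT (max n 2) M α‖ ≤ (M : ℝ) ^ 2 * Real.exp (-(N : ℝ) ^ (3 / 2 : ℝ)) := by
  obtain ⟨N₀, hN₀⟩ := Filter.eventually_atTop.1
    ((ll_ev hη hC hθ hθ1 (40960 * (C + 2) ^ 5 / θ ^ 2)).and (Filter.eventually_ge_atTop 1))
  refine ⟨N₀, fun N hN M hM n hn1 hnC α hdio => ?_⟩
  obtain ⟨hK, hN1⟩ := hN₀ N hN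
  obtain ⟨ℓ, hℓ⟩ : ∃ ℓ, ℓ = ll C θ N := ⟨_, rfl⟩
  obtain ⟨L, hL⟩ : ∃ L, L = Real.log M := ⟨_, rfl⟩
  rw [← hℓ] at hK
  rw [← hL] at hM
  have hN1' : (1 : ℝ) ≤ N := by exact_mod_cast hN1
  have hNp : (0 : ℝ) < N := by linarith
  have hl0 : (0 : ℝ) ≤ ℓ := Nat.cast_nonneg _
  have hC2 : (0 : ℝ) < C + 2 := by linarith
  -- the size of `L`
  have hX : (N : ℝ) ^ (5 + η) = (N : ℝ) ^ 5 * (N : ℝ) ^ η := by
    rw [Real.rpow_add hNp]
    congr 1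
    exact_mod_cast Real.rpow_natCast (N : ℝ) 5
  have hN5 : (1 : ℝ) ≤ (N : ℝ) ^ 5 := one_le_pow₀ hN1'
  have hKb : 8192 * ((C + 2) ^ 5 * ((ℓ : ℝ) + 2) ^ 6 * (N : ℝ) ^ 5) ≤ θ ^ 2 * L := by
    have hKa : (40960 * (C + 2) ^ 5 / θ ^ 2) * ((ℓ : ℝ) + 2) ^ 6 * (N : ℝ) ^ 5 / 5 ≤ L := by
      refine le_trans ?_ hM
      rw [hX]
      have : (40960 * (C + 2) ^ 5 / θ ^ 2) * ((ℓ : ℝ) + 2) ^ 6 * (N : ℝ) ^ 5 ≤
          (N : ℝ) ^ η * (N : ℝ) ^ 5 := mul_le_mul_of_nonneg_right hK (by positivity)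
      linarith
    have e : (40960 * (C + 2) ^ 5 / θ ^ 2) * ((ℓ : ℝ) + 2) ^ 6 * (N : ℝ) ^ 5 / 5 =
        8192 * ((C + 2) ^ 5 * ((ℓ : ℝ) + 2) ^ 6 * (N : ℝ) ^ 5) / θ ^ 2 := by
      field_simp
      ring
    rw [e, div_le_iff₀ (by positivity)] at hKa
    linarith
  have hbig : (2 : ℝ) ^ 6 ≤ ((ℓ : ℝ) + 2) ^ 6 := pow_le_pow_left₀ (by norm_num) (by linarith) 6
  have hbig2 : (3 : ℝ) ^ 5 ≤ (C + 2) ^ 5 := pow_le_pow_left₀ (by norm_num) (by linarith) 5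
  have hθ2 : θ ^ 2 ≤ θ := by nlinarith
  have hLc : 12288 ≤ θ ^ 2 * L := by
    refine le_trans ?_ hKb
    calc (12288 : ℝ) ≤ 8192 * ((3 : ℝ) ^ 5 * (2 : ℝ) ^ 6 * 1) := by norm_num
      _ ≤ 8192 * ((C + 2) ^ 5 * ((ℓ : ℝ) + 2) ^ 6 * (N : ℝ) ^ 5) := by
        apply mul_le_mul_of_nonneg_left _ (by norm_num)
        exact mul_le_mul (mul_le_mul hbig2 hbig (by norm_num) (by positivity)) hN5 (by norm_num)
          (by positivity)
  have hθsq : θ ^ 2 ≤ 1 := hθ2.trans hθ1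
  have hθsq0 : 0 < θ ^ 2 := by positivity
  have hL0 : 0 < L := by
    by_contra hcon
    have : θ ^ 2 * L ≤ 0 := mul_nonpos_of_nonneg_of_nonpos hθsq0.le (not_lt.1 hcon)
    linarith
  have hL1 : 1 ≤ L := by
    have : θ ^ 2 * L ≤ 1 * L := mul_le_mul_of_nonneg_right hθsq hL0.le
    linarith
  have hM1 : 1 ≤ M := by
    by_contra hcon
    have : M = 0 := by omega
    rw [hL, this] at hL0
    simp at hL0
  -- the degree
  obtain ⟨r, hr⟩ : ∃ r, r = max n 2 := ⟨_, rfl⟩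
  rw [← hr]
  have hr2 : 2 ≤ r := hr ▸ le_max_right _ _
  have hnr : n ≤ r := hr ▸ le_max_left _ _
  have hr2n : r ≤ 2 * n := by
    rw [hr]
    exact max_le (by omega) (by omega)
  have hrn2 : (r : ℝ) ≤ n + 2 := by
    have : r ≤ n + 2 := hr ▸ max_le (by omega) (by omega)
    exact_mod_cast this
  have hrR : (r : ℝ) ≤ (C + 2) * N := by nlinarith
  have hrR1 : (r : ℝ) + 1 ≤ C * N + 3 := by linarith
  have hr2' : (2 : ℝ) ≤ r := by exact_mod_cast hr2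
  have hr2n' : (r : ℝ) ≤ 2 * n := by exact_mod_cast hr2n
  have hn1' : (1 : ℝ) ≤ n := by exact_mod_cast hn1
  have hr5 : (r : ℝ) ^ 5 ≤ (C + 2) ^ 5 * (N : ℝ) ^ 5 := by
    rw [← mul_pow]
    exact pow_le_pow_left₀ (by positivity) hrR 5
  have h1 : 8192 * ((r : ℝ) ^ 5 * ((ℓ : ℝ) + 2) ^ 6) ≤ θ ^ 2 * L := by
    refine le_trans ?_ hKb
    have : (r : ℝ) ^ 5 * ((ℓ : ℝ) + 2) ^ 6 ≤ ((C + 2) ^ 5 * (N : ℝ) ^ 5) * ((ℓ : ℝ) + 2) ^ 6 :=
      mul_le_mul_of_nonneg_right hr5 (by positivity)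
    linarith
  have h1' : 8192 * ((r : ℝ) ^ 5 * ((ℓ : ℝ) + 2) ^ 6) ≤ θ * L :=
    h1.trans (mul_le_mul_of_nonneg_right hθ2 hL0.le)
  have hKb' : 8192 * ((C + 2) ^ 5 * ((ℓ : ℝ) + 2) ^ 6 * (N : ℝ) ^ 5) ≤ θ * L :=
    hKb.trans (mul_le_mul_of_nonneg_right hθ2 hL0.le)
  have hθL : θ * L ≤ 1 * L := mul_le_mul_of_nonneg_right hθ1 hL0.le
  obtain ⟨s, hs⟩ : ∃ s, s = r ^ 2 + r * (r * ℓ) := ⟨_, rfl⟩
  have hsR : (s : ℝ) = (r : ℝ) ^ 2 * (1 + ℓ) := by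
    rw [hs]
    push_cast
    ring
  have hsL : 8192 * (s : ℝ) ≤ θ * L := by
    refine le_trans ?_ h1'
    rw [hsR]
    have hl2 : (1 : ℝ) + ℓ ≤ ((ℓ : ℝ) + 2) ^ 6 := by
      calc (1 : ℝ) + ℓ ≤ (ℓ : ℝ) + 2 := by linarith
        _ = ((ℓ : ℝ) + 2) ^ 1 := (pow_one _).symm
        _ ≤ ((ℓ : ℝ) + 2) ^ 6 := pow_le_pow_right₀ (by linarith) (by norm_num)
    have hr25 : (r : ℝ) ^ 2 ≤ (r : ℝ) ^ 5 := pow_le_pow_right₀ (by linarith) (by norm_num)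
    have : (r : ℝ) ^ 2 * (1 + ℓ) ≤ (r : ℝ) ^ 5 * ((ℓ : ℝ) + 2) ^ 6 :=
      mul_le_mul hr25 hl2 (by positivity) (by positivity)
    linarith
  have hs0 : (0 : ℝ) ≤ s := Nat.cast_nonneg _
  apply core (m := r * ℓ) (L := L) (θ := θ) hr2 hM1 hL hn1 hnr hθ hL0 hdio
  · have := qA hr2' hl0 hr2n' h1'
    push_cast
    linarith
  · rw [← hs]
    have := qB hs0 (by linarith) hr2n' hsL
    linarith
  · have := qF hC hθ hr2 hrR1 hℓ
    have h2 : θ * r ≤ θ * (2 * n) := mul_le_mul_of_nonneg_left hr2n' hθ.le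
    linarith
  · rw [← hs]
    exact qC hn1' hL1 (by linarith) hLc
  · rw [← hs]
    have hZ : (N : ℝ) ^ (3 / 2 : ℝ) ≤ (N : ℝ) ^ 2 := by
      rw [← Real.rpow_natCast]
      apply Real.rpow_le_rpow_of_exponent_le hN1'
      norm_num
    have := qD hC hN1' hr2' hl0 hr2n' hrR hsR (by positivity) hZ hKb'
    linarith

end Pool.Agent.V5helper45.AB
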