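import Pool.Agent.V5helper45.AB.TTf

/-!
# Weyl sums of degree up to `C N` over intervals of length at least `exp (N ^ (5 + η))`
-/

set_option autoImplicit false

namespace Pool.Agent.V5helper45.AB

open Finset Filter Polynomial
open Pool.Agent.Y957.VK
open Pool.Agent.Y309.VK (ea ea_zero ea_add ea_sum ea_conj)

lemma norm_ea (x : ℝ) : ‖ea x‖ = 1 := by
  unfold ea
  have : 2 * (Real.pi : ℂ) * Complex.I * (x : ℂ) = ((2 * Real.pi * x : ℝ) : ℂ) * Complex.I := by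
    push_cast
    ring
  rw [this]
  exact Complex.norm_exp_ofReal_mul_I _

lemma shift_le (G : ℕ → ℂ) (hG : ∀ i, ‖G i‖ ≤ 1) (H u : ℕ) :
    ‖∑ i ∈ range H, G i - ∑ i ∈ range H, G (i + u)‖ ≤ 2 * u := by
  have h1 : ∑ i ∈ range (H + u), G i = ∑ i ∈ range H, G i + ∑ i ∈ range u, G (H + i) :=
    Finset.sum_range_add G H u
  have h2 : ∑ i ∈ range (u + H), G i = ∑ i ∈ range u, G i + ∑ i ∈ range H, G (u + i) :=
    Finset.sum_range_add G u H
  rw [add_comm u H] at h2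
  have h3 : ∑ i ∈ range H, G (i + u) = ∑ i ∈ range H, G (u + i) :=
    Finset.sum_congr rfl fun i _ => by rw [add_comm]
  have h4 : ∑ i ∈ range H, G i - ∑ i ∈ range H, G (i + u) =
      ∑ i ∈ range u, G i - ∑ i ∈ range u, G (H + i) := by
    rw [h3]
    linear_combination h2 - h1
  rw [h4]
  have h5 : ‖∑ i ∈ range u, G i‖ ≤ u := by
    refine (norm_sum_le _ _).trans ?_
    refine (Finset.sum_le_card_nsmul _ _ 1 fun i _ => hG i).trans ?_
    simp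
  have h6 : ‖∑ i ∈ range u, G (H + i)‖ ≤ u := by
    refine (norm_sum_le _ _).trans ?_
    refine (Finset.sum_le_card_nsmul _ _ 1 fun i _ => hG _).trans ?_
    simp
  have := norm_sub_le (∑ i ∈ range u, G i) (∑ i ∈ range u, G (H + i))
  linarith

lemma taylor_sum (F : ℝ[X]) {r : ℕ} (hr : F.natDegree ≤ r) (t u : ℝ) :
    F.eval (t + u) = F.eval t + ∑ j ∈ Icc 1 r, (taylor t F).coeff j * u ^ j := by
  have h1 : F.eval (t + u) = (taylor t F).eval u := by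
    rw [taylor_eval, add_comm]
  rw [h1, eval_eq_sum_range' (n := r + 1) (by rw [natDegree_taylor]; omega)]
  rw [Finset.sum_range_succ', taylor_coeff_zero]
  simp only [pow_zero, mul_one]
  rw [add_comm]
  congr 1
  have h : Finset.Icc 1 r = Finset.Ico 1 (r + 1) := by
    ext i; simp only [Finset.mem_Icc, Finset.mem_Ico]; omega
  rw [h, Finset.sum_Ico_eq_sum_range]
  simp only [Nat.add_sub_cancel]
  exact Finset.sum_congr rfl fun j _ => by rw [add_comm 1 j]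

theorem shiftTT (F : ℝ[X]) {r M : ℕ} (hr : F.natDegree ≤ r) (hM : 1 ≤ M) (T : ℝ) (H : ℕ) {B : ℝ}
    (hB : ∀ t : ℝ, ‖TT r M (fun j => (taylor t F).coeff j)‖ ≤ B) :
    ‖∑ i ∈ range H, ea (F.eval (T + i))‖ ≤ H * (B / (M : ℝ) ^ 2) + 2 * (M : ℝ) ^ 2 := by
  have hM0 : (0 : ℝ) < M := by exact_mod_cast hM
  set S := ∑ i ∈ range H, ea (F.eval (T + i)) with hS
  have h1 : ∀ x ∈ Icc 1 M, ∀ y ∈ Icc 1 M,
      ‖S - ∑ i ∈ range H, ea (F.eval (T + i + (x : ℝ) * y))‖ ≤ 2 * (M : ℝ) ^ 2 := by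
    intro x hx y hy
    have h2 := shift_le (fun i => ea (F.eval (T + i))) (fun i => (norm_ea _).le) H (x * y)
    have h3 : ∑ i ∈ range H, (fun i : ℕ => ea (F.eval (T + i))) (i + x * y) =
        ∑ i ∈ range H, ea (F.eval (T + i + (x : ℝ) * y)) := by
      refine Finset.sum_congr rfl fun i _ => ?_
      simp only
      congr 2
      push_cast
      ring
    rw [h3] at h2
    refine h2.trans ?_
    rw [Finset.mem_Icc] at hx hy
    have h4 : x * y ≤ M * M := Nat.mul_le_mul hx.2 hy.2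
    have h5 : ((x * y : ℕ) : ℝ) ≤ (M : ℝ) ^ 2 := by
      rw [sq]
      exact_mod_cast h4
    linarith
  have h2 : ∑ x ∈ Icc 1 M, ∑ y ∈ Icc 1 M, ∑ i ∈ range H, ea (F.eval (T + i + (x : ℝ) * y)) =
      ∑ i ∈ range H, ea (F.eval (T + i)) * TT r M (fun j => (taylor (T + i) F).coeff j) := by
    rw [Finset.sum_congr rfl fun x _ => Finset.sum_comm]
    rw [Finset.sum_comm]
    refine Finset.sum_congr rfl fun i _ => ?_
    rw [TT, Finset.mul_sum]
    refine Finset.sum_congr rfl fun x _ => ?_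
    rw [Finset.mul_sum]
    refine Finset.sum_congr rfl fun y _ => ?_
    rw [taylor_sum F hr, ea_add]
    rfl
  have h3 : ‖∑ i ∈ range H, ea (F.eval (T + i)) * TT r M (fun j => (taylor (T + i) F).coeff j)‖ ≤
      H * B := by
    refine (norm_sum_le _ _).trans ?_
    refine (Finset.sum_le_card_nsmul _ _ B fun i _ => ?_).trans ?_
    · rw [norm_mul, norm_ea, one_mul]
      exact hB _
    · simp
  have h4 : ‖(M : ℂ) ^ 2 * S - ∑ x ∈ Icc 1 M, ∑ y ∈ Icc 1 M,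
      ∑ i ∈ range H, ea (F.eval (T + i + (x : ℝ) * y))‖ ≤ (M : ℝ) ^ 2 * (2 * (M : ℝ) ^ 2) := by
    have e1 : (M : ℂ) ^ 2 * S = ∑ x ∈ Icc 1 M, ∑ y ∈ Icc 1 M, S := by
      simp only [Finset.sum_const, Nat.card_Icc, Nat.add_sub_cancel, nsmul_eq_mul]
      ring
    rw [e1, ← Finset.sum_sub_distrib]
    refine (norm_sum_le _ _).trans ?_
    calc ∑ x ∈ Icc 1 M, ‖∑ y ∈ Icc 1 M, S - ∑ y ∈ Icc 1 M,
          ∑ i ∈ range H, ea (F.eval (T + i + (x : ℝ) * y))‖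
        ≤ ∑ x ∈ Icc 1 M, ∑ y ∈ Icc 1 M, (2 * (M : ℝ) ^ 2) := by
          refine Finset.sum_le_sum fun x hx => ?_
          rw [← Finset.sum_sub_distrib]
          refine (norm_sum_le _ _).trans ?_
          exact Finset.sum_le_sum fun y hy => h1 x hx y hy
      _ = (M : ℝ) ^ 2 * (2 * (M : ℝ) ^ 2) := by
          simp only [Finset.sum_const, Nat.card_Icc, Nat.add_sub_cancel, nsmul_eq_mul]
          ring
  rw [h2] at h4
  have h5 : ‖(M : ℂ) ^ 2 * S‖ ≤ H * B + (M : ℝ) ^ 2 * (2 * (M : ℝ) ^ 2) := by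
    have := norm_sub_norm_le ((M : ℂ) ^ 2 * S)
      (∑ i ∈ range H, ea (F.eval (T + i)) * TT r M (fun j => (taylor (T + i) F).coeff j))
    linarith
  rw [norm_mul, norm_pow, Complex.norm_natCast] at h5
  have h6 : ‖S‖ ≤ (H * B + (M : ℝ) ^ 2 * (2 * (M : ℝ) ^ 2)) / (M : ℝ) ^ 2 := by
    rw [le_div_iff₀ (by positivity)]
    linarith
  refine h6.trans (le_of_eq ?_)
  field_simp

theorem weyl {η : ℝ} (hη : 0 < η) {C A : ℝ} (κ : ℝ) (hC : 1 ≤ C) (hA : 1 ≤ A) :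
    ∃ N₀ : ℕ, ∀ N : ℕ, N₀ ≤ N → ∀ H : ℕ, Real.exp ((N : ℝ) ^ (5 + η)) ≤ H → ∀ (T : ℝ) (F : ℝ[X]),
      1 ≤ F.natDegree → (F.natDegree : ℝ) ≤ C * N →
      (∀ q : ℕ, 1 ≤ q → ∀ p : ℤ,
        Real.exp (-(κ * N)) / (q : ℝ) ^ A ≤ |F.leadingCoeff * q - p|) →
      ‖∑ i ∈ range H, ea (F.eval (T + i))‖ ≤ 3 * H * Real.exp (-(N : ℝ) ^ (3 / 2 : ℝ)) := by
  have hA0 : 0 < A := by linarith
  obtain ⟨N₀, hN₀⟩ := TT_fin (θ := 1 / (2 * A)) hη hC (by positivity) (by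
    rw [div_le_one (by positivity)]
    linarith)
  refine ⟨max N₀ (max 2 (⌈10 * |κ|⌉₊)), fun N hN H hH T F hF1 hF2 hdio => ?_⟩
  have hN1 : N₀ ≤ N := le_of_max_le_left hN
  have hN2 : 2 ≤ N := le_of_max_le_left (le_of_max_le_right hN)
  have hN3 : ⌈10 * |κ|⌉₊ ≤ N := le_of_max_le_right (le_of_max_le_right hN)
  have hκN : 10 * |κ| ≤ N := (Nat.le_ceil _).trans (by exact_mod_cast hN3)
  have hN2' : (2 : ℝ) ≤ N := by exact_mod_cast hN2
  have hX : (N : ℝ) ^ 5 ≤ (N : ℝ) ^ (5 + η) := by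
    rw [← Real.rpow_natCast]
    apply Real.rpow_le_rpow_of_exponent_le (by linarith)
    push_cast
    linarith
  have hX32 : 32 ≤ (N : ℝ) ^ 5 := by
    calc (32 : ℝ) = 2 ^ 5 := by norm_num
      _ ≤ (N : ℝ) ^ 5 := pow_le_pow_left₀ (by norm_num) hN2' 5
  have hH0 : (0 : ℝ) < H := lt_of_lt_of_le (Real.exp_pos _) hH
  have hH1 : 1 ≤ H := by exact_mod_cast hH0
  have hlogH : (N : ℝ) ^ (5 + η) ≤ Real.log H := by
    rw [Real.le_log_iff_exp_le hH0]
    exact hH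
  obtain ⟨M, hM⟩ : ∃ M, M = Nat.sqrt (Nat.sqrt H) := ⟨_, rfl⟩
  have hM1 : 1 ≤ M := by
    rw [hM]
    exact Nat.sqrt_pos.2 (Nat.sqrt_pos.2 hH1)
  have hM0 : (0 : ℝ) < M := by exact_mod_cast hM1
  have hM4 : M ^ 4 ≤ H := by
    have h1 : M ^ 2 ≤ Nat.sqrt H := by rw [hM]; exact Nat.sqrt_le' _
    calc M ^ 4 = (M ^ 2) ^ 2 := by ring
      _ ≤ (Nat.sqrt H) ^ 2 := Nat.pow_le_pow_left h1 2
      _ ≤ H := Nat.sqrt_le' _
  have hM4' : H < (M + 1) ^ 4 := by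
    have h1 : Nat.sqrt H < (M + 1) ^ 2 := by rw [hM]; exact Nat.lt_succ_sqrt' _
    have h2 : H < (Nat.sqrt H + 1) ^ 2 := Nat.lt_succ_sqrt' _
    calc H < (Nat.sqrt H + 1) ^ 2 := h2
      _ ≤ ((M + 1) ^ 2) ^ 2 := Nat.pow_le_pow_left h1 2
      _ = (M + 1) ^ 4 := by ring
  have hlogM : (N : ℝ) ^ (5 + η) / 5 ≤ Real.log M := by
    have h1 : Real.log H ≤ Real.log ((M + 1 : ℕ) ^ 4 : ℕ) :=
      Real.log_le_log hH0 (by exact_mod_cast hM4'.le)
    have h2 : Real.log ((M + 1 : ℕ) ^ 4 : ℕ) = 4 * Real.log (M + 1) := by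
      push_cast
      rw [Real.log_pow]
      norm_num
    have h3 : Real.log ((M : ℝ) + 1) ≤ Real.log (2 * M) := by
      apply Real.log_le_log (by positivity)
      have : (1 : ℝ) ≤ M := by exact_mod_cast hM1
      linarith
    have h4 : Real.log (2 * M) = Real.log 2 + Real.log M :=
      Real.log_mul (by norm_num) hM0.ne'
    have h5 := Real.log_two_lt_d9
    norm_num at h5
    linarith
  have hκ : κ * N ≤ Real.log M / 2 := by
    have h1 : κ * N ≤ |κ| * N := mul_le_mul_of_nonneg_right (le_abs_self _) (by positivity)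
    have h2 : |κ| * N ≤ N / 10 * N := by nlinarith
    have h3 : (N : ℝ) / 10 * N ≤ (N : ℝ) ^ 5 / 10 := by
      have : (N : ℝ) ^ 2 ≤ (N : ℝ) ^ 5 := pow_le_pow_right₀ (by linarith) (by norm_num)
      nlinarith
    linarith
  obtain ⟨n, hn⟩ : ∃ n, n = F.natDegree := ⟨_, rfl⟩
  rw [← hn] at hF1 hF2
  have hn1' : (1 : ℝ) ≤ n := by exact_mod_cast hF1
  have hr : F.natDegree ≤ max n 2 := by rw [← hn]; exact le_max_left _ _
  have hTT : ∀ t : ℝ, ‖TT (max n 2) M (fun j => (taylor t F).coeff j)‖ ≤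
      (M : ℝ) ^ 2 * Real.exp (-(N : ℝ) ^ (3 / 2 : ℝ)) := by
    intro t
    apply hN₀ N hN1 M hlogM n hF1 hF2
    intro q hq hqM p
    have hq1 : (1 : ℝ) ≤ q := by exact_mod_cast hq
    have h1 : (taylor t F).coeff n = F.leadingCoeff := by
      rw [hn]
      have := leadingCoeff_taylor t F
      rw [← this, leadingCoeff, natDegree_taylor]
    simp only [h1]
    refine le_trans ?_ (hdio q hq p)
    have h2 : (q : ℝ) ^ A ≤ (M : ℝ) ^ ((n : ℝ) / 2) := by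
      calc (q : ℝ) ^ A ≤ ((M : ℝ) ^ (1 / (2 * A) * n)) ^ A :=
            Real.rpow_le_rpow (by positivity) hqM hA0.le
        _ = (M : ℝ) ^ ((n : ℝ) / 2) := by
          rw [← Real.rpow_mul hM0.le]
          congr 1
          field_simp
    have h3 : Real.exp (κ * N) ≤ (M : ℝ) ^ ((n : ℝ) / 2) := by
      rw [Real.rpow_def_of_pos hM0]
      apply Real.exp_le_exp.2
      have : 0 ≤ Real.log M := le_trans (by positivity) hlogM
      nlinarith
    have h4 : (M : ℝ) ^ n = (M : ℝ) ^ ((n : ℝ) / 2) * (M : ℝ) ^ ((n : ℝ) / 2) := by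
      rw [← Real.rpow_add hM0, ← Real.rpow_natCast]
      congr 1
      ring
    have h5 : 0 < (M : ℝ) ^ ((n : ℝ) / 2) := Real.rpow_pos_of_pos hM0 _
    have h6 : 0 < (q : ℝ) ^ A := Real.rpow_pos_of_pos (by linarith) _
    rw [Real.exp_neg, h4, div_le_div_iff₀ (by positivity) h6, one_mul]
    calc (q : ℝ) ^ A ≤ (M : ℝ) ^ ((n : ℝ) / 2) := h2
      _ = 1 * (M : ℝ) ^ ((n : ℝ) / 2) := (one_mul _).symm
      _ ≤ ((Real.exp (κ * N))⁻¹ * (M : ℝ) ^ ((n : ℝ) / 2)) * (M : ℝ) ^ ((n : ℝ) / 2) := by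
        apply mul_le_mul_of_nonneg_right _ h5.le
        rw [inv_mul_eq_div, le_div_iff₀ (Real.exp_pos _), one_mul]
        exact h3
      _ = _ := by ring
  have hmain := shiftTT F hr hM1 T H hTT
  refine hmain.trans ?_
  have e1 : (M : ℝ) ^ 2 * Real.exp (-(N : ℝ) ^ (3 / 2 : ℝ)) / (M : ℝ) ^ 2 =
      Real.exp (-(N : ℝ) ^ (3 / 2 : ℝ)) := by field_simp
  rw [e1]
  have e2 : (M : ℝ) ^ 2 ≤ H * Real.exp (-(N : ℝ) ^ (3 / 2 : ℝ)) := by
    have h1 : (N : ℝ) ^ (3 / 2 : ℝ) ≤ (N : ℝ) ^ (5 + η) / 2 := by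
      have : (N : ℝ) ^ (3 / 2 : ℝ) ≤ (N : ℝ) ^ 2 := by
        rw [← Real.rpow_natCast]
        apply Real.rpow_le_rpow_of_exponent_le (by linarith)
        norm_num
      have h2 : 2 * (N : ℝ) ^ 2 ≤ (N : ℝ) ^ 5 := by
        have h3 : (8 : ℝ) ≤ (N : ℝ) ^ 3 := by
          calc (8 : ℝ) = 2 ^ 3 := by norm_num
            _ ≤ (N : ℝ) ^ 3 := pow_le_pow_left₀ (by norm_num) hN2' 3
        have h4 : (N : ℝ) ^ 5 = (N : ℝ) ^ 3 * (N : ℝ) ^ 2 := by ring
        rw [h4]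
        nlinarith [sq_nonneg (N : ℝ)]
      linarith
    have h2 : ((M : ℝ) ^ 2) ^ 2 ≤ (H * Real.exp (-(N : ℝ) ^ (3 / 2 : ℝ))) ^ 2 := by
      calc ((M : ℝ) ^ 2) ^ 2 = (M : ℝ) ^ 4 := by ring
        _ ≤ (H : ℝ) := by exact_mod_cast hM4
        _ = (H : ℝ) * (Real.exp ((N : ℝ) ^ (5 + η)) * Real.exp (-(N : ℝ) ^ (5 + η))) := by
          rw [← Real.exp_add, add_neg_cancel, Real.exp_zero, mul_one]
        _ ≤ H * (H * Real.exp (-(N : ℝ) ^ (5 + η))) := by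
          apply mul_le_mul_of_nonneg_left _ hH0.le
          exact mul_le_mul_of_nonneg_right hH (Real.exp_pos _).le
        _ ≤ H * (H * Real.exp (-(2 * (N : ℝ) ^ (3 / 2 : ℝ)))) := by
          apply mul_le_mul_of_nonneg_left _ hH0.le
          apply mul_le_mul_of_nonneg_left _ hH0.le
          apply Real.exp_le_exp.2
          linarith
        _ = (H * Real.exp (-(N : ℝ) ^ (3 / 2 : ℝ))) ^ 2 := by
          rw [mul_pow, ← Real.exp_nat_mul]
          push_cast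
          ring_nf
    exact le_of_pow_le_pow_left₀ (by norm_num) (by positivity) h2
  linarith

end Pool.Agent.V5helper45.AB
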